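import Pool.Agent.Helper23.K3.norm
import Pool.Agent.Helper58.K3.baseA
import Pool.Agent.Helper2.K3.baseB

/-!
# The triangular case with `χ₀ < 1 < χ₁, χ₂`
-/

set_option autoImplicit false

open Set Filter Topology

namespace Pool.Agent.Helper23.K3

open Pool.Agent.Helper77.K3 Pool.Agent.Helper33.K3

/-- The action on the plane of the last two coordinates. -/
def act (γ : Aff3) (q : Fin 2 → ℝ) : Fin 2 → ℝ :=
  ![lin γ 1 1 * q 0 + lin γ 1 2 * q 1 + tr γ 1, lin γ 2 2 * q 1 + tr γ 2]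

lemma act_zero (γ : Aff3) (q : Fin 2 → ℝ) :
    act γ q 0 = lin γ 1 1 * q 0 + lin γ 1 2 * q 1 + tr γ 1 := rfl

lemma act_one' (γ : Aff3) (q : Fin 2 → ℝ) : act γ q 1 = lin γ 2 2 * q 1 + tr γ 2 := rfl

lemma ext2 {p q : Fin 2 → ℝ} (h0 : p 0 = q 0) (h1 : p 1 = q 1) : p = q := by
  ext i
  fin_cases i
  · exact h0
  · exact h1

lemma act_mul {γ δ : Aff3} (hγ : IsTri γ) (hδ : IsTri δ) (q : Fin 2 → ℝ) :
    act (γ * δ) q = act γ (act δ q) := by
  obtain ⟨a1, a2, a3, -, -, -, -⟩ := hγ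
  obtain ⟨b1, b2, b3, -, -, -, -⟩ := hδ
  apply ext2
  · rw [act_zero, act_zero, act_zero, act_one', lin_mul, lin_mul, tr_mul, a1, b3]
    ring
  · rw [act_one', act_one', act_one', lin_mul, tr_mul, a2, a3]
    ring

/-- Lines parallel to `e 0` in the complement. -/
def Kv (D : KData) : Set (Fin 2 → ℝ) := {q | ∀ x : ℝ, (![x, q 0, q 1] : E) ∈ D.K}

lemma Kv_closed (D : KData) : IsClosed (Kv D) := by
  have h : Kv D = ⋂ x : ℝ, {q : Fin 2 → ℝ | (![x, q 0, q 1] : E) ∈ D.K} := by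
    ext q
    simp [Kv]
  rw [h]
  apply isClosed_iInter
  intro x
  have hc : Continuous (fun q : Fin 2 → ℝ => (![x, q 0, q 1] : E)) := by
    apply continuous_pi
    intro i
    fin_cases i
    · exact continuous_const
    · exact continuous_apply 0
    · exact continuous_apply 1
  exact (Pool.Agent.Helper58.K3.baseA.K D).1.preimage hc

lemma apply_vec (γ : Aff3) (hγ : IsTri γ) (x : ℝ) (q : Fin 2 → ℝ) :
    γ ![x, q 0, q 1] =
      ![lin γ 0 0 * x + lin γ 0 1 * q 0 + lin γ 0 2 * q 1 + tr γ 0, act γ q 0, act γ q 1] := by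
  obtain ⟨a1, a2, a3, -, -, -, -⟩ := hγ
  ext i
  rw [apply_coord]
  fin_cases i
  · rfl
  · show lin γ 1 0 * x + lin γ 1 1 * q 0 + lin γ 1 2 * q 1 + tr γ 1 = act γ q 0
    rw [act_zero, a1]; ring
  · show lin γ 2 0 * x + lin γ 2 1 * q 0 + lin γ 2 2 * q 1 + tr γ 2 = act γ q 1
    rw [act_one', a2, a3]; ring

lemma Kv_inv (D : KData) (hT : D.Tri) {γ : Aff3} (hγ : γ ∈ D.Γ) (q : Fin 2 → ℝ) :
    act γ q ∈ Kv D ↔ q ∈ Kv D := by
  have hK := (Pool.Agent.Helper58.K3.baseA.K D).2 γ hγ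
  have h0 : lin γ 0 0 ≠ 0 := (hT γ hγ).2.2.2.1.ne'
  constructor
  · intro h x
    rw [← hK, apply_vec γ (hT γ hγ)]
    exact h _
  · intro h x
    have h2 := (hK _).2 (h ((x - lin γ 0 1 * q 0 - lin γ 0 2 * q 1 - tr γ 0) / lin γ 0 0))
    rw [apply_vec γ (hT γ hγ)] at h2
    convert h2 using 2
    field_simp
    ring

/-- No line is contained in `Kv`. -/
lemma Kv_line (D : KData) (a b c : ℝ) (h : a ≠ 0 ∨ b ≠ 0) :
    ∃ q : Fin 2 → ℝ, q ∉ Kv D ∧ a * q 0 + b * q 1 = c := by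
  obtain ⟨x, hx, hxc⟩ := Pool.Agent.Helper2.K3.baseB.F2 D ![0, a, b] c (by
    intro h0
    rcases h with h | h
    · exact h (congrFun h0 1)
    · exact h (congrFun h0 2))
  refine ⟨![x 1, x 2], ?_, ?_⟩
  · intro hq
    have h1 := hq (x 0)
    apply h1
    convert hx using 1
    ext i
    fin_cases i <;> rfl
  · have : (0 : ℝ) * x 0 + a * x 1 + b * x 2 = c := hxc
    show a * x 1 + b * x 2 = c
    linarith

/-- Translations which preserve a set. -/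
def stab (S : Set (Fin 2 → ℝ)) : AddSubgroup (Fin 2 → ℝ) where
  carrier := {t | ∀ q, q + t ∈ S ↔ q ∈ S}
  zero_mem' := by
    intro q
    rw [add_zero]
  add_mem' := by
    intro s t hs ht q
    rw [← add_assoc]
    exact (ht _).trans (hs _)
  neg_mem' := by
    intro t ht q
    have := ht (q + -t)
    rw [neg_add_cancel_right] at this
    exact this.symm

lemma mem_stab {S : Set (Fin 2 → ℝ)} {t : Fin 2 → ℝ} : t ∈ stab S ↔ ∀ q, q + t ∈ S ↔ q ∈ S :=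
  Iff.rfl

lemma closure_stab {S : Set (Fin 2 → ℝ)} (hS : IsClosed S) (h0 : (0 : Fin 2 → ℝ) ∈ S) :
    closure (stab S : Set (Fin 2 → ℝ)) ⊆ S := by
  apply closure_minimal _ hS
  intro t ht
  have := (ht 0).2 h0
  rwa [zero_add] at this

/-- Small translations preserving `Kv` do not exist. -/
lemma Kv_small (hnd : S_nondisc) (D : KData) (h0 : (0 : Fin 2 → ℝ) ∈ Kv D)
    (h : ∀ ε > 0, ∃ t ∈ stab (Kv D), t ≠ 0 ∧ ‖t‖ < ε) : False := by
  obtain ⟨w, hw, hr⟩ := hnd (stab (Kv D)) h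
  have hr' : ∀ r : ℝ, r • w ∈ Kv D := fun r => closure_stab (Kv_closed D) h0 (hr r)
  have hw' : w 1 ≠ 0 ∨ -w 0 ≠ 0 := by
    by_contra hcon
    push Not at hcon
    apply hw
    apply ext2
    · exact neg_eq_zero.1 hcon.2
    · exact hcon.1
  obtain ⟨q, hq, hql⟩ := Kv_line D (w 1) (-w 0) 0 hw'
  apply hq
  have hlin : w 1 * q 0 = w 0 * q 1 := by linarith
  by_cases h1 : w 1 = 0
  · have h2 : w 0 ≠ 0 := by
      rcases hw' with h | h
      · exact absurd h1 h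
      · exact fun h' => h (by rw [h', neg_zero])
    have h3 : q 1 = 0 := by
      rw [h1, zero_mul] at hlin
      rcases mul_eq_zero.1 hlin.symm with h | h
      · exact absurd h h2
      · exact h
    have : q = (q 0 / w 0) • w := by
      apply ext2
      · rw [Pi.smul_apply, smul_eq_mul, div_mul_cancel₀ _ h2]
      · rw [Pi.smul_apply, smul_eq_mul, h1, h3, mul_zero]
    rw [this]
    exact hr' _
  · have : q = (q 1 / w 1) • w := by
      apply ext2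
      · rw [Pi.smul_apply, smul_eq_mul]
        field_simp
        linarith
      · rw [Pi.smul_apply, smul_eq_mul, div_mul_cancel₀ _ h1]
    rw [this]
    exact hr' _

lemma rec_tendsto (α β s : ℝ) (hα : 0 < α) (hα1 : α < 1) (hβ : 0 < β) (hβ1 : β < 1) (u z : ℕ → ℝ)
    (hz : ∀ n, z (n + 1) = β * z n) (hu : ∀ n, u (n + 1) = α * u n + s * z n) :
    Tendsto z atTop (𝓝 0) ∧ Tendsto u atTop (𝓝 0) := by
  have hzn : ∀ n, z n = β ^ n * z 0 := by
    intro n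
    induction n with
    | zero => rw [pow_zero, one_mul]
    | succ n ih => rw [hz, ih, pow_succ]; ring
  set ρ := max α β with hρ
  have hρ0 : 0 < ρ := lt_max_of_lt_left hα
  have hρ1 : ρ < 1 := max_lt hα1 hβ1
  have hun : ∀ n : ℕ, |u n| ≤ (|u 0| + n * (|s| * |z 0| / ρ)) * ρ ^ n := by
    intro n
    induction n with
    | zero => simp
    | succ n ih =>
      rw [hu, hzn]
      have h1 : |α * u n| ≤ ρ * ((|u 0| + n * (|s| * |z 0| / ρ)) * ρ ^ n) := by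
        rw [abs_mul, abs_of_pos hα]
        exact mul_le_mul (le_max_left _ _) ih (abs_nonneg _) hρ0.le
      have h2 : |s * (β ^ n * z 0)| ≤ |s| * |z 0| * ρ ^ n := by
        rw [abs_mul, abs_mul, abs_of_pos (pow_pos hβ n)]
        have : β ^ n ≤ ρ ^ n := pow_le_pow_left₀ hβ.le (le_max_right _ _) n
        calc |s| * (β ^ n * |z 0|) ≤ |s| * (ρ ^ n * |z 0|) := by gcongr
          _ = _ := by ring
      calc |α * u n + s * (β ^ n * z 0)| ≤ |α * u n| + |s * (β ^ n * z 0)| := abs_add_le _ _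
        _ ≤ ρ * ((|u 0| + n * (|s| * |z 0| / ρ)) * ρ ^ n) + |s| * |z 0| * ρ ^ n := add_le_add h1 h2
        _ = (|u 0| + ((n + 1 : ℕ) : ℝ) * (|s| * |z 0| / ρ)) * ρ ^ (n + 1) := by
          push_cast
          field_simp
          ring
  constructor
  · have h1 : Tendsto (fun n : ℕ => β ^ n * z 0) atTop (𝓝 (0 * z 0)) :=
      (tendsto_pow_atTop_nhds_zero_of_lt_one hβ.le hβ1).mul_const _
    rw [zero_mul] at h1
    exact h1.congr fun n => (hzn n).symm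
  · apply squeeze_zero_norm (a := fun n : ℕ => (|u 0| + n * (|s| * |z 0| / ρ)) * ρ ^ n)
    · intro n
      rw [Real.norm_eq_abs]
      exact hun n
    · have h1 : Tendsto (fun n : ℕ => |u 0| * ρ ^ n) atTop (𝓝 (|u 0| * 0)) :=
        (tendsto_pow_atTop_nhds_zero_of_lt_one hρ0.le hρ1).const_mul _
      have h2 : Tendsto (fun n : ℕ => (|s| * |z 0| / ρ) * (n * ρ ^ n)) atTop
          (𝓝 ((|s| * |z 0| / ρ) * 0)) :=
        (tendsto_self_mul_const_pow_of_lt_one hρ0.le hρ1).const_mul _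
      have h3 := h1.add h2
      rw [mul_zero, mul_zero, add_zero] at h3
      exact h3.congr fun n => by ring

lemma tri_pow {f : Aff3} (hf : IsTri f) (n : ℕ) :
    IsTri (f ^ n) ∧ ∀ i, lin (f ^ n) i i = (lin f i i) ^ n := by
  induction n with
  | zero =>
    refine ⟨⟨?_, ?_, ?_, ?_, ?_, ?_, ?_⟩, ?_⟩ <;> simp [lin_one]
  | succ n ih =>
    have h := tri_mul ih.1 hf
    refine ⟨?_, fun i => ?_⟩
    · rw [pow_succ]
      exact h.1
    · rw [pow_succ, pow_succ, h.2, ih.2]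

section core

variable {D : KData} {f : Aff3}

lemma act_f_zero (ht : ∀ i, tr f i = 0) : act f 0 = 0 := by
  apply ext2
  · rw [act_zero, ht]; simp
  · rw [act_one', ht]; simp

lemma act_f_inj (hT : IsTri f) : Function.Injective (act f) := by
  obtain ⟨-, -, -, -, h1, h2, -⟩ := hT
  intro p q h
  have e1 := congrFun h 1
  have e0 := congrFun h 0
  rw [act_one', act_one'] at e1
  rw [act_zero, act_zero] at e0
  have h11 : p 1 = q 1 := by
    have : lin f 2 2 * (p 1 - q 1) = 0 := by linarith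
    rcases mul_eq_zero.1 this with h | h
    · exact absurd h h2.ne'
    · linarith
  rw [h11] at e0
  have h00 : p 0 = q 0 := by
    have : lin f 1 1 * (p 0 - q 0) = 0 := by linarith
    rcases mul_eq_zero.1 this with h | h
    · exact absurd h h1.ne'
    · linarith
  exact ext2 h00 h11

lemma act_f_add (ht : ∀ i, tr f i = 0) (p q : Fin 2 → ℝ) : act f (p + q) = act f p + act f q := by
  apply ext2
  · rw [Pi.add_apply, act_zero, act_zero, act_zero, ht, Pi.add_apply, Pi.add_apply]; ring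
  · rw [Pi.add_apply, act_one', act_one', act_one', ht, Pi.add_apply]; ring

lemma act_surj {γ : Aff3} (hγ : IsTri γ) (q : Fin 2 → ℝ) : ∃ p, act γ p = q := by
  refine ⟨act γ⁻¹ q, ?_⟩
  rw [← act_mul hγ (tri_inv hγ).1, mul_inv_cancel]
  apply ext2
  · rw [act_zero, lin_one, lin_one, tr_one]; simp
  · rw [act_one', lin_one, tr_one]; simp

lemma iter_tendsto (hT : IsTri f) (ht : ∀ i, tr f i = 0) (hα : lin f 1 1 < 1) (hβ : lin f 2 2 < 1)
    (q : Fin 2 → ℝ) : Tendsto (fun n => (act f)^[n] q) atTop (𝓝 0) := by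
  obtain ⟨-, -, -, -, h1, h2, -⟩ := hT
  obtain ⟨k1, k2⟩ := rec_tendsto (lin f 1 1) (lin f 2 2) (lin f 1 2) h1 hα h2 hβ
    (fun n => ((act f)^[n] q) 0) (fun n => ((act f)^[n] q) 1)
    (by
      intro n
      show ((act f)^[n + 1] q) 1 = _
      rw [Function.iterate_succ_apply', act_one', ht, add_zero])
    (by
      intro n
      show ((act f)^[n + 1] q) 0 = _
      rw [Function.iterate_succ_apply', act_zero, ht, add_zero])
  rw [tendsto_pi_nhds]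
  intro i
  fin_cases i
  · exact k2
  · exact k1

lemma pow_vec (hT : IsTri f) (h01 : lin f 0 1 = 0) (h02 : lin f 0 2 = 0) (ht : ∀ i, tr f i = 0)
    (x : ℝ) (q : Fin 2 → ℝ) (n : ℕ) :
    (f ^ n) ![x, q 0, q 1] = ![(lin f 0 0) ^ n * x, ((act f)^[n] q) 0, ((act f)^[n] q) 1] := by
  induction n with
  | zero =>
    rw [pow_zero, pow_zero, one_mul]
    rfl
  | succ n ih =>
    rw [pow_succ', Function.iterate_succ_apply']
    show f ((f ^ n) ![x, q 0, q 1]) = _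
    rw [ih, apply_vec f hT, h01, h02, ht]
    congr 1
    ring

lemma zero_mem_Kv (hT : D.Tri) (hf : f ∈ D.Γ) (h01 : lin f 0 1 = 0) (h02 : lin f 0 2 = 0)
    (ht : ∀ i, tr f i = 0) (hα : lin f 1 1 < 1) (hβ : lin f 2 2 < 1) :
    (0 : Fin 2 → ℝ) ∈ Kv D := by
  obtain ⟨-, -, -, h0, h1, h2, h3⟩ := hT f hf
  have hμ : 1 < lin f 0 0 := by
    by_contra hcon
    push Not at hcon
    have : lin f 0 0 * lin f 1 1 * lin f 2 2 < 1 := by
      have hh : lin f 0 0 * lin f 1 1 ≤ 1 := by nlinarith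
      nlinarith
    linarith
  obtain ⟨x, hx, hx0⟩ := Pool.Agent.Helper2.K3.baseB.F2 D ![1, 0, 0] 0 (by
    intro h
    have := congrFun h 0
    simp at this)
  have hx0' : x 0 = 0 := by
    have : (1 : ℝ) * x 0 + 0 * x 1 + 0 * x 2 = 0 := hx0
    linarith
  set q : Fin 2 → ℝ := ![x 1, x 2] with hq
  intro a
  have hP := Pool.Agent.Helper58.K3.baseA.P1 D (fun n => f ^ n)
    (fun n => ![(lin f 0 0)⁻¹ ^ n * a, q 0, q 1]) ![0, q 0, q 1] ![a, 0, 0]
    (fun n => D.Γ.pow_mem hf n) ?_ ?_ ?_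
  · rcases hP with h | h
    · exfalso
      apply h
      have : (![0, q 0, q 1] : E) = x := by
        ext i
        fin_cases i
        · exact hx0'.symm
        · rfl
        · rfl
      rw [this]
      exact hx
    · exact h
  · apply Pool.Agent.Helper58.K3.baseA.cof.1
    refine ⟨0, 0, ?_⟩
    have h4 : (fun n => |lin (f ^ n) 0 0|) = fun n => (lin f 0 0) ^ n := by
      funext n
      rw [(tri_pow (hT f hf) n).2, abs_of_pos (pow_pos h0 n)]
    rw [h4]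
    exact tendsto_pow_atTop_atTop_of_one_lt hμ
  · rw [tendsto_pi_nhds]
    intro i
    fin_cases i
    · have h5 : Tendsto (fun n : ℕ => (lin f 0 0)⁻¹ ^ n * a) atTop (𝓝 (0 * a)) :=
        (tendsto_pow_atTop_nhds_zero_of_lt_one (inv_nonneg.2 h0.le) (inv_lt_one_of_one_lt₀ hμ)).mul_const _
      rw [zero_mul] at h5
      exact h5
    · exact tendsto_const_nhds
    · exact tendsto_const_nhds
  · have h6 : (fun n : ℕ => (f ^ n) ![(lin f 0 0)⁻¹ ^ n * a, q 0, q 1]) =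
        fun n => ![a, ((act f)^[n] q) 0, ((act f)^[n] q) 1] := by
      funext n
      rw [pow_vec (hT f hf) h01 h02 ht]
      congr 1
      rw [← mul_assoc, ← mul_pow, mul_inv_cancel₀ h0.ne', one_pow, one_mul]
    rw [h6]
    have h7 := iter_tendsto (hT f hf) ht hα hβ q
    rw [tendsto_pi_nhds] at h7 ⊢
    intro i
    fin_cases i
    · exact tendsto_const_nhds
    · exact h7 0
    · exact h7 1

lemma stab_act (hT : D.Tri) (hf : f ∈ D.Γ) (ht : ∀ i, tr f i = 0) (t : Fin 2 → ℝ)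
    (h : t ∈ stab (Kv D)) : act f t ∈ stab (Kv D) := by
  rw [mem_stab] at h ⊢
  intro q
  obtain ⟨p, rfl⟩ := act_surj (hT f hf) q
  rw [← act_f_add ht, Kv_inv D hT hf, Kv_inv D hT hf]
  exact h p

lemma stab_triv (hnd : S_nondisc) (hT : D.Tri) (hf : f ∈ D.Γ) (h01 : lin f 0 1 = 0)
    (h02 : lin f 0 2 = 0) (ht : ∀ i, tr f i = 0) (hα : lin f 1 1 < 1) (hβ : lin f 2 2 < 1)
    (t : Fin 2 → ℝ) (h : t ∈ stab (Kv D)) : t = 0 := by
  by_contra hne
  apply Kv_small hnd D (zero_mem_Kv hT hf h01 h02 ht hα hβ)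
  intro ε hε
  have h1 := iter_tendsto (hT f hf) ht hα hβ t
  have h2 : ∀ n, (act f)^[n] t ∈ stab (Kv D) ∧ (act f)^[n] t ≠ 0 := by
    intro n
    induction n with
    | zero => exact ⟨h, hne⟩
    | succ n ih =>
      rw [Function.iterate_succ_apply']
      refine ⟨stab_act hT hf ht _ ih.1, fun h0 => ih.2 ?_⟩
      apply act_f_inj (hT f hf)
      rw [h0, act_f_zero ht]
  have h3 := (Metric.tendsto_atTop.1 h1) ε hε
  obtain ⟨n, hn⟩ := h3
  refine ⟨_, (h2 n).1, (h2 n).2, ?_⟩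
  have := hn n le_rfl
  rwa [dist_zero_right] at this

/-- If `γ` acts by a translation then the translation is trivial. -/
lemma trans_triv (htriv : ∀ t ∈ stab (Kv D), t = 0) (hT : D.Tri) {γ : Aff3} (hγ : γ ∈ D.Γ)
    (t : Fin 2 → ℝ) (h : ∀ q, act γ q = q + t) : t = 0 := by
  apply htriv
  rw [mem_stab]
  intro q
  rw [← h, Kv_inv D hT hγ]

lemma comm_rel (htriv : ∀ t ∈ stab (Kv D), t = 0) (hT : D.Tri) {σ τ : Aff3} (hσ : σ ∈ D.Γ)
    (hτ : τ ∈ D.Γ) (hσ1 : ∀ i, lin σ i i = 1) (hτ1 : ∀ i, lin τ i i = 1) :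
    lin σ 1 2 * tr τ 2 = lin τ 1 2 * tr σ 2 := by
  have hρ : σ * τ * σ⁻¹ * τ⁻¹ ∈ D.Γ :=
    D.Γ.mul_mem (D.Γ.mul_mem (D.Γ.mul_mem hσ hτ) (D.Γ.inv_mem hσ)) (D.Γ.inv_mem hτ)
  have h1 : ∀ p, act (σ * τ * σ⁻¹ * τ⁻¹) p =
      p + ![lin σ 1 2 * tr τ 2 - lin τ 1 2 * tr σ 2, 0] := by
    intro p
    have hτσ : IsTri (τ * σ) := hT _ (D.Γ.mul_mem hτ hσ)
    obtain ⟨q, rfl⟩ := act_surj hτσ p
    rw [← act_mul (hT _ hρ) hτσ]
    have : σ * τ * σ⁻¹ * τ⁻¹ * (τ * σ) = σ * τ := by group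
    rw [this, act_mul (hT σ hσ) (hT τ hτ), act_mul (hT τ hτ) (hT σ hσ)]
    apply ext2
    · rw [Pi.add_apply, act_zero, act_zero, act_one', act_zero, act_zero, act_one', hσ1, hτ1, hσ1, hτ1]
      show _ = _ + (lin σ 1 2 * tr τ 2 - lin τ 1 2 * tr σ 2)
      ring
    · rw [Pi.add_apply, act_one', act_one', act_one', act_one', hσ1, hτ1]
      show _ = _ + (0 : ℝ)
      ring
  have h2 := congrFun (trans_triv htriv hT hρ _ h1) 0
  have h3 : lin σ 1 2 * tr τ 2 - lin τ 1 2 * tr σ 2 = 0 := h2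
  linarith

/-- Closed additive subgroups of `ℝ` with small elements. -/
lemma real_sub (L : AddSubgroup ℝ) (hL : IsClosed (L : Set ℝ)) (β b : ℝ) (hβ : 0 < β) (hβ1 : β < 1)
    (hb : b ≠ 0) (h : ∀ n : ℕ, β ^ n * b ∈ L) (r : ℝ) : r ∈ L := by
  have hd : Dense (L : Set ℝ) := by
    apply AddSubgroup.dense_of_not_isolated_zero
    intro ε hε
    have h1 : Tendsto (fun n : ℕ => β ^ n * |b|) atTop (𝓝 (0 * |b|)) :=
      (tendsto_pow_atTop_nhds_zero_of_lt_one hβ.le hβ1).mul_const _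
    rw [zero_mul] at h1
    obtain ⟨n, hn⟩ := ((tendsto_order.1 h1).2 ε hε).exists
    refine ⟨β ^ n * |b|, ?_, by positivity, hn⟩
    rcases abs_choice b with hb' | hb'
    · rw [hb']
      exact h n
    · rw [hb', mul_neg]
      exact L.neg_mem (h n)
  have := hd.closure_eq
  rw [hL.closure_eq] at this
  have h2 : r ∈ (univ : Set ℝ) := mem_univ r
  rw [← this] at h2
  exact h2

/-- A closed subgroup of the plane with an element which is not on the axes, invariant under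
`diag (β ^ 2, β)`. -/
lemma plane_sub (L : AddSubgroup (Fin 2 → ℝ)) (hL : IsClosed (L : Set (Fin 2 → ℝ))) (β : ℝ)
    (hβ : 0 < β) (hβ1 : β < 1) (hinv : ∀ t ∈ L, (![β ^ 2 * t 0, β * t 1] : Fin 2 → ℝ) ∈ L)
    (t₁ t₂ : Fin 2 → ℝ) (h1 : t₁ ∈ L) (h2 : t₂ ∈ L) (hc : t₁ 1 ≠ 0) (hb : t₂ 0 ≠ 0)
    (q : Fin 2 → ℝ) : q ∈ L := by
  have hn : ∀ t ∈ L, ∀ n : ℕ, (![(β ^ 2) ^ n * t 0, β ^ n * t 1] : Fin 2 → ℝ) ∈ L := by
    intro t ht n
    induction n with
    | zero =>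
      have : (![(β ^ 2) ^ 0 * t 0, β ^ 0 * t 1] : Fin 2 → ℝ) = t := by
        apply ext2
        · show (β ^ 2) ^ 0 * t 0 = t 0
          rw [pow_zero, one_mul]
        · show β ^ 0 * t 1 = t 1
          rw [pow_zero, one_mul]
      rw [this]
      exact ht
    | succ n ih =>
      have := hinv _ ih
      convert this using 1
      apply ext2
      · show (β ^ 2) ^ (n + 1) * t 0 = β ^ 2 * ((β ^ 2) ^ n * t 0)
        ring
      · show β ^ (n + 1) * t 1 = β * (β ^ n * t 1)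
        ring
  -- the second axis
  have hz : ∀ r : ℝ, (![0, r] : Fin 2 → ℝ) ∈ L := by
    intro r
    set m : ℕ → ℤ := fun n => ⌊r / (β ^ n * t₁ 1)⌋ with hm
    have hden : ∀ n : ℕ, β ^ n * t₁ 1 ≠ 0 := fun n => mul_ne_zero (pow_ne_zero _ hβ.ne') hc
    have hβn : Tendsto (fun n : ℕ => β ^ n) atTop (𝓝 0) :=
      tendsto_pow_atTop_nhds_zero_of_lt_one hβ.le hβ1
    have hlim1 : Tendsto (fun n : ℕ => (m n : ℝ) * (β ^ n * t₁ 1)) atTop (𝓝 r) := by
      rw [tendsto_iff_dist_tendsto_zero]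
      apply squeeze_zero (g := fun n : ℕ => β ^ n * |t₁ 1|) (fun _ => dist_nonneg)
      · intro n
        have hfl := Int.floor_le (r / (β ^ n * t₁ 1))
        have hfl2 := Int.lt_floor_add_one (r / (β ^ n * t₁ 1))
        rw [Real.dist_eq]
        have : (m n : ℝ) * (β ^ n * t₁ 1) - r = (m n - r / (β ^ n * t₁ 1)) * (β ^ n * t₁ 1) := by
          rw [sub_mul, div_mul_cancel₀ _ (hden n)]
        rw [this, abs_mul, abs_mul, abs_of_pos (pow_pos hβ n)]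
        have h3 : |(m n : ℝ) - r / (β ^ n * t₁ 1)| ≤ 1 := by
          rw [abs_le]
          constructor
          · show -1 ≤ ((⌊r / (β ^ n * t₁ 1)⌋ : ℤ) : ℝ) - r / (β ^ n * t₁ 1)
            linarith
          · show ((⌊r / (β ^ n * t₁ 1)⌋ : ℤ) : ℝ) - r / (β ^ n * t₁ 1) ≤ 1
            linarith
        have h4 : 0 ≤ β ^ n * |t₁ 1| := by positivity
        nlinarith
      · have := hβn.mul_const |t₁ 1|
        rwa [zero_mul] at this
    have hlim0 : Tendsto (fun n : ℕ => (m n : ℝ) * ((β ^ 2) ^ n * t₁ 0)) atTop (𝓝 0) := by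
      have h5 : Tendsto (fun n : ℕ => ((m n : ℝ) * (β ^ n * t₁ 1)) * (β ^ n * (t₁ 0 / t₁ 1))) atTop
          (𝓝 (r * (0 * (t₁ 0 / t₁ 1)))) := hlim1.mul (hβn.mul_const _)
      rw [zero_mul, mul_zero] at h5
      apply h5.congr
      intro n
      rw [← pow_mul, mul_comm 2 n, pow_mul]
      field_simp
    have hmem : ∀ n : ℕ, (![(m n : ℝ) * ((β ^ 2) ^ n * t₁ 0), (m n : ℝ) * (β ^ n * t₁ 1)] : Fin 2 → ℝ) ∈
        (L : Set (Fin 2 → ℝ)) := by
      intro n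
      have := L.zsmul_mem (hn t₁ h1 n) (m n)
      have he : (![(m n : ℝ) * ((β ^ 2) ^ n * t₁ 0), (m n : ℝ) * (β ^ n * t₁ 1)] : Fin 2 → ℝ) =
          m n • (![(β ^ 2) ^ n * t₁ 0, β ^ n * t₁ 1] : Fin 2 → ℝ) := by
        apply ext2
        · rw [Pi.smul_apply, zsmul_eq_mul]
          rfl
        · rw [Pi.smul_apply, zsmul_eq_mul]
          rfl
      rw [he]
      exact this
    have hlim : Tendsto (fun n : ℕ => (![(m n : ℝ) * ((β ^ 2) ^ n * t₁ 0), (m n : ℝ) * (β ^ n * t₁ 1)] :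
        Fin 2 → ℝ)) atTop (𝓝 ![0, r]) := by
      rw [tendsto_pi_nhds]
      intro i
      fin_cases i
      · exact hlim0
      · exact hlim1
    exact hL.mem_of_tendsto hlim (Eventually.of_forall hmem)
  -- the first axis
  have hx : ∀ r : ℝ, (![r, 0] : Fin 2 → ℝ) ∈ L := by
    let j : ℝ →+ (Fin 2 → ℝ) :=
      { toFun := fun r => ![r, 0]
        map_zero' := by
          apply ext2 <;> rfl
        map_add' := by
          intro a b
          apply ext2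
          · rfl
          · show (0 : ℝ) = 0 + 0
            ring }
    have hjc : Continuous j := by
      apply continuous_pi
      intro i
      fin_cases i
      · exact continuous_id
      · exact continuous_const
    intro r
    have hcl : IsClosed ((L.comap j : AddSubgroup ℝ) : Set ℝ) := hL.preimage hjc
    refine real_sub (L.comap j) hcl (β ^ 2) (t₂ 0) (by positivity) (by nlinarith) hb ?_ r
    intro n
    show (![(β ^ 2) ^ n * t₂ 0, 0] : Fin 2 → ℝ) ∈ L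
    have h3 := L.sub_mem (hn t₂ h2 n) (hz (β ^ n * t₂ 1))
    convert h3 using 1
    apply ext2
    · show (β ^ 2) ^ n * t₂ 0 = (β ^ 2) ^ n * t₂ 0 - 0
      ring
    · show (0 : ℝ) = β ^ n * t₂ 1 - β ^ n * t₂ 1
      ring
  have h4 := L.add_mem (hx (q 0)) (hz (q 1))
  convert h4 using 1
  apply ext2
  · show q 0 = q 0 + 0
    ring
  · show q 1 = 0 + q 1
    ring

theorem core_false (hnd : S_nondisc) (hT : D.Tri) (hf : f ∈ D.Γ) (h01 : lin f 0 1 = 0)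
    (h02 : lin f 0 2 = 0) (ht : ∀ i, tr f i = 0) (hα : lin f 1 1 < 1) (hβ : lin f 2 2 < 1)
    (hs : lin f 1 1 ≠ lin f 2 2 → lin f 1 2 = 0)
    (hdens : ∀ a b : ℝ, a < b → ∃ τ ∈ D.Γ, (∀ i, lin τ i i = 1) ∧ a < tr τ 2 ∧ tr τ 2 < b) :
    False := by
  have htriv := stab_triv hnd hT hf h01 h02 ht hα hβ
  have hzero := zero_mem_Kv hT hf h01 h02 ht hα hβ
  have hcomm : ∀ {σ τ : Aff3}, σ ∈ D.Γ → τ ∈ D.Γ → (∀ i, lin σ i i = 1) → (∀ i, lin τ i i = 1) →
      lin σ 1 2 * tr τ 2 = lin τ 1 2 * tr σ 2 := fun hσ hτ hσ1 hτ1 => comm_rel htriv hT hσ hτ hσ1 hτ1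
  obtain ⟨-, -, -, -, hα0, hβ0, -⟩ := id (hT f hf)
  set α := lin f 1 1 with hαd
  set β := lin f 2 2 with hβd
  obtain ⟨τ, hτ, hτ1, hτpos, -⟩ := hdens 0 1 one_pos
  set c₀ := tr τ 2 with hc₀
  have hc0 : c₀ ≠ 0 := hτpos.ne'
  set ε₀ := lin τ 1 2 / c₀ with hε₀
  have hετ : lin τ 1 2 = ε₀ * c₀ := by rw [hε₀, div_mul_cancel₀ _ hc0]
  have hε : ∀ {σ : Aff3}, σ ∈ D.Γ → (∀ i, lin σ i i = 1) → lin σ 1 2 = ε₀ * tr σ 2 := by
    intro σ hσ hσ1
    have h := hcomm hσ hτ hσ1 hτ1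
    rw [hετ] at h
    have h2 : (lin σ 1 2 - ε₀ * tr σ 2) * c₀ = 0 := by linarith
    rcases mul_eq_zero.1 h2 with h | h
    · linarith
    · exact absurd h hc0
  have hε0 : ε₀ ≠ 0 := by
    intro h0
    have h1 : ∀ q, act τ q = q + ![tr τ 1, tr τ 2] := by
      intro q
      apply ext2
      · rw [Pi.add_apply, act_zero, hτ1, hετ, h0]
        show _ = q 0 + tr τ 1
        ring
      · rw [Pi.add_apply, act_one', hτ1]
        show _ = q 1 + tr τ 2
        ring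
    have h2 := congrFun (trans_triv htriv hT hτ _ h1) 1
    exact hc0 h2
  -- conjugation of unipotent elements by arbitrary elements
  have hconj : ∀ {h σ : Aff3}, h ∈ D.Γ → σ ∈ D.Γ → (∀ i, lin σ i i = 1) →
      h * σ * h⁻¹ ∈ D.Γ ∧ (∀ i, lin (h * σ * h⁻¹) i i = 1) ∧
      lin (h * σ * h⁻¹) 1 2 * lin h 2 2 = lin h 1 1 * lin σ 1 2 ∧
      tr (h * σ * h⁻¹) 2 = lin h 2 2 * tr σ 2 := by
    intro h σ hh hσ hσ1
    have hm : h * σ * h⁻¹ ∈ D.Γ := D.Γ.mul_mem (D.Γ.mul_mem hh hσ) (D.Γ.inv_mem hh)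
    have hd := tri_conj (hT h hh) (hT σ hσ)
    have hd1 : ∀ i, lin (h * σ * h⁻¹) i i = 1 := fun i => by rw [hd.2, hσ1]
    have he : h * σ * h⁻¹ * h = h * σ := by group
    have h12 : lin (h * σ * h⁻¹ * h) 1 2 = lin (h * σ) 1 2 := by rw [he]
    have ht2 : tr (h * σ * h⁻¹ * h) 2 = tr (h * σ) 2 := by rw [he]
    rw [lin_mul (h * σ * h⁻¹) h, lin_mul h σ, hd1, hd.1.1, (hT h hh).1, hσ1] at h12
    rw [tr_mul (h * σ * h⁻¹) h, tr_mul h σ, hd1, hd.1.2.1, hd.1.2.2.1, (hT h hh).2.1, (hT h hh).2.2.1] at ht2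
    exact ⟨hm, hd1, by linarith, by linarith⟩
  have hsq : ∀ {h : Aff3}, h ∈ D.Γ → lin h 1 1 = lin h 2 2 ^ 2 := by
    intro h hh
    obtain ⟨k1, k2, k3, k4⟩ := hconj hh hτ hτ1
    have k5 := hε k1 k2
    rw [k5, k4, hετ] at k3
    have k6 : (lin h 1 1 - lin h 2 2 ^ 2) * (ε₀ * c₀) = 0 := by linarith
    rcases mul_eq_zero.1 k6 with h | h
    · linarith
    · exact absurd h (mul_ne_zero hε0 hc0)
  have hαβ : α = β ^ 2 := hsq hf
  have hs0 : lin f 1 2 = 0 := by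
    apply hs
    rw [hαβ]
    intro h
    have : β * (β - 1) = 0 := by linarith
    rcases mul_eq_zero.1 this with h | h
    · exact hβ0.ne' h
    · linarith
  have hactf : ∀ q, act f q = ![β ^ 2 * q 0, β * q 1] := by
    intro q
    apply ext2
    · rw [act_zero, hs0, ht, ← hαβ]
      show α * q 0 + 0 * q 1 + 0 = α * q 0
      ring
    · rw [act_one', ht, add_zero]
      rfl
  -- the coordinates `(w, z)`
  set ψ : (Fin 2 → ℝ) → (Fin 2 → ℝ) := fun p => ![p 0 + ε₀ * (p 1) ^ 2 / 2, p 1] with hψ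
  have hψc : Continuous ψ := by
    apply continuous_pi
    intro i
    fin_cases i
    · show Continuous fun p : Fin 2 → ℝ => p 0 + ε₀ * (p 1) ^ 2 / 2
      fun_prop
    · exact continuous_apply 1
  have hKw0 : (0 : Fin 2 → ℝ) ∈ ψ ⁻¹' Kv D := by
    show ψ 0 ∈ Kv D
    have : ψ 0 = 0 := by
      apply ext2
      · show (0 : ℝ) + ε₀ * 0 ^ 2 / 2 = 0
        ring
      · rfl
    rw [this]
    exact hzero
  have hKwc : IsClosed (ψ ⁻¹' Kv D) := (Kv_closed D).preimage hψc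
  have hσw : ∀ {σ : Aff3}, σ ∈ D.Γ → (∀ i, lin σ i i = 1) →
      (![tr σ 1 - ε₀ * tr σ 2 ^ 2 / 2, tr σ 2] : Fin 2 → ℝ) ∈ stab (ψ ⁻¹' Kv D) := by
    intro σ hσ hσ1
    rw [mem_stab]
    intro p
    show ψ (p + ![tr σ 1 - ε₀ * tr σ 2 ^ 2 / 2, tr σ 2]) ∈ Kv D ↔ ψ p ∈ Kv D
    rw [← Kv_inv D hT hσ (ψ p)]
    have : ψ (p + ![tr σ 1 - ε₀ * tr σ 2 ^ 2 / 2, tr σ 2]) = act σ (ψ p) := by
      apply ext2
      · rw [act_zero, hσ1, hε hσ hσ1]
        show (p 0 + (tr σ 1 - ε₀ * tr σ 2 ^ 2 / 2)) + ε₀ * (p 1 + tr σ 2) ^ 2 / 2 =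
          1 * (p 0 + ε₀ * (p 1) ^ 2 / 2) + ε₀ * tr σ 2 * p 1 + tr σ 1
        ring
      · rw [act_one', hσ1]
        show p 1 + tr σ 2 = 1 * p 1 + tr σ 2
        ring
    rw [this]
  have hfw : ∀ t ∈ stab (ψ ⁻¹' Kv D), (![β ^ 2 * t 0, β * t 1] : Fin 2 → ℝ) ∈
      stab (ψ ⁻¹' Kv D) := by
    intro t htS
    rw [mem_stab] at htS ⊢
    have hψf : ∀ p, ψ ![β ^ 2 * p 0, β * p 1] = act f (ψ p) := by
      intro p
      rw [hactf]
      apply ext2
      · show β ^ 2 * p 0 + ε₀ * (β * p 1) ^ 2 / 2 = β ^ 2 * (p 0 + ε₀ * (p 1) ^ 2 / 2)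
        ring
      · rfl
    intro q
    set p : Fin 2 → ℝ := ![q 0 / β ^ 2, q 1 / β] with hp
    have hq : q = ![β ^ 2 * p 0, β * p 1] := by
      apply ext2
      · show q 0 = β ^ 2 * (q 0 / β ^ 2)
        field_simp
      · show q 1 = β * (q 1 / β)
        field_simp
    have hq2 : q + ![β ^ 2 * t 0, β * t 1] = ![β ^ 2 * (p + t) 0, β * (p + t) 1] := by
      apply ext2
      · show q 0 + β ^ 2 * t 0 = β ^ 2 * (q 0 / β ^ 2 + t 0)
        field_simp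
      · show q 1 + β * t 1 = β * (q 1 / β + t 1)
        field_simp
    show ψ (q + ![β ^ 2 * t 0, β * t 1]) ∈ Kv D ↔ ψ q ∈ Kv D
    rw [hq2, hψf, Kv_inv D hT hf]
    rw [hq, hψf, Kv_inv D hT hf]
    exact htS p
  -- the translation parts in the direction `w` vanish
  have hb' : ∀ {σ : Aff3}, σ ∈ D.Γ → (∀ i, lin σ i i = 1) → tr σ 1 - ε₀ * tr σ 2 ^ 2 / 2 = 0 := by
    intro σ hσ hσ1
    by_contra hne
    set L := (stab (ψ ⁻¹' Kv D)).topologicalClosure with hLd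
    have hLc : IsClosed (L : Set (Fin 2 → ℝ)) := AddSubgroup.isClosed_topologicalClosure _
    have hLinv : ∀ t ∈ L, (![β ^ 2 * t 0, β * t 1] : Fin 2 → ℝ) ∈ L := by
      intro t htL
      have hcont : Continuous fun t : Fin 2 → ℝ => (![β ^ 2 * t 0, β * t 1] : Fin 2 → ℝ) := by
        apply continuous_pi
        intro i
        fin_cases i
        · show Continuous fun t : Fin 2 → ℝ => β ^ 2 * t 0
          fun_prop
        · show Continuous fun t : Fin 2 → ℝ => β * t 1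
          fun_prop
      have hmc := map_mem_closure (f := fun t : Fin 2 → ℝ => (![β ^ 2 * t 0, β * t 1] : Fin 2 → ℝ))
        hcont htL hfw
      exact hmc
    have hall := plane_sub L hLc β hβ0 hβ hLinv _ _
      (subset_closure (hσw hτ hτ1)) (subset_closure (hσw hσ hσ1)) hc0 hne
    obtain ⟨q, hq, -⟩ := Kv_line D 1 0 0 (Or.inl one_ne_zero)
    apply hq
    have h1 : (![q 0 - ε₀ * q 1 ^ 2 / 2, q 1] : Fin 2 → ℝ) ∈ ψ ⁻¹' Kv D :=
      closure_stab hKwc hKw0 (hall _)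
    have h2 : ψ ![q 0 - ε₀ * q 1 ^ 2 / 2, q 1] = q := by
      apply ext2
      · show q 0 - ε₀ * q 1 ^ 2 / 2 + ε₀ * q 1 ^ 2 / 2 = q 0
        ring
      · rfl
    have h3 : ψ ![q 0 - ε₀ * q 1 ^ 2 / 2, q 1] ∈ Kv D := h1
    rwa [h2] at h3
  -- the function `w`
  set W : (Fin 2 → ℝ) → ℝ := fun q => q 0 - ε₀ * q 1 ^ 2 / 2 with hW
  have hWσ : ∀ {σ : Aff3}, σ ∈ D.Γ → (∀ i, lin σ i i = 1) → ∀ q, W (act σ q) = W q := by
    intro σ hσ hσ1 q
    have h1 := hb' hσ hσ1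
    show act σ q 0 - ε₀ * act σ q 1 ^ 2 / 2 = q 0 - ε₀ * q 1 ^ 2 / 2
    rw [act_zero, act_one', hσ1, hσ1, hε hσ hσ1]
    linear_combination h1
  have hWh : ∀ {h : Aff3}, h ∈ D.Γ → ∀ q, W (act h q) = lin h 1 1 * W q := by
    intro h hh
    have hn : h * f * h⁻¹ * f⁻¹ ∈ D.Γ :=
      D.Γ.mul_mem (D.Γ.mul_mem (D.Γ.mul_mem hh hf) (D.Γ.inv_mem hh)) (D.Γ.inv_mem hf)
    have hn1 := (tri_comm (hT h hh) (hT f hf)).2
    have hrel : ∀ q, W (act h (act f q)) = β ^ 2 * W (act h q) := by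
      intro q
      have e1 : h * f = h * f * h⁻¹ * f⁻¹ * (f * h) := by group
      rw [← act_mul (hT h hh) (hT f hf), e1, act_mul (hT _ hn) (hT _ (D.Γ.mul_mem hf hh)),
        hWσ hn hn1, act_mul (hT f hf) (hT h hh), hactf]
      show β ^ 2 * act h q 0 - ε₀ * (β * act h q 1) ^ 2 / 2 =
        β ^ 2 * (act h q 0 - ε₀ * act h q 1 ^ 2 / 2)
      ring
    have hβ2 : β ^ 2 ≠ 1 := by
      intro h2
      nlinarith
    have r0 := hrel 0
    rw [act_f_zero ht] at r0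
    have r0' : W (act h 0) = 0 := by
      have : (1 - β ^ 2) * W (act h 0) = 0 := by linarith
      rcases mul_eq_zero.1 this with h | h
      · exact absurd (by linarith) hβ2
      · exact h
    have r0'' : tr h 1 = ε₀ * tr h 2 ^ 2 / 2 := by
      have : act h 0 0 - ε₀ * act h 0 1 ^ 2 / 2 = 0 := r0'
      rw [act_zero, act_one'] at this
      simp only [Pi.zero_apply, mul_zero, zero_add] at this
      linarith
    have r1 := hrel ![0, 1]
    rw [hactf] at r1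
    have r1' : (lin h 1 1 * (β ^ 2 * 0) + lin h 1 2 * (β * 1) + tr h 1) -
        ε₀ * (lin h 2 2 * (β * 1) + tr h 2) ^ 2 / 2 =
        β ^ 2 * ((lin h 1 1 * 0 + lin h 1 2 * 1 + tr h 1) - ε₀ * (lin h 2 2 * 1 + tr h 2) ^ 2 / 2) := r1
    have r2 : (lin h 1 2 - ε₀ * lin h 2 2 * tr h 2) * (β * (1 - β)) = 0 := by
      rw [r0''] at r1'
      linear_combination r1'
    have r3 : lin h 1 2 = ε₀ * lin h 2 2 * tr h 2 := by
      rcases mul_eq_zero.1 r2 with h | h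
      · linarith
      · exact absurd h (mul_ne_zero hβ0.ne' (by linarith))
    intro q
    show act h q 0 - ε₀ * act h q 1 ^ 2 / 2 = lin h 1 1 * (q 0 - ε₀ * q 1 ^ 2 / 2)
    rw [act_zero, act_one', r3, r0'', hsq hh]
    ring
  -- the invariant convex set
  set C : Set E := {x | ε₀ ^ 2 * x 2 ^ 2 / 2 ≤ ε₀ * x 1} with hC
  have hCuniv : C = univ := by
    apply Pool.Agent.Helper2.K3.baseB.F1 D C
    · intro x hx y hy a b ha hb hab
      have hx' : ε₀ ^ 2 * x 2 ^ 2 / 2 ≤ ε₀ * x 1 := hx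
      have hy' : ε₀ ^ 2 * y 2 ^ 2 / 2 ≤ ε₀ * y 1 := hy
      show ε₀ ^ 2 * (a * x 2 + b * y 2) ^ 2 / 2 ≤ ε₀ * (a * x 1 + b * y 1)
      have h1 : (a * x 2 + b * y 2) ^ 2 ≤ a * x 2 ^ 2 + b * y 2 ^ 2 := by
        have : a * x 2 ^ 2 + b * y 2 ^ 2 - (a * x 2 + b * y 2) ^ 2 = a * b * (x 2 - y 2) ^ 2 := by
          have hb' : b = 1 - a := by linarith
          subst hb'
          ring
        have h0 : 0 ≤ a * b * (x 2 - y 2) ^ 2 := by positivity
        linarith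
      calc ε₀ ^ 2 * (a * x 2 + b * y 2) ^ 2 / 2 ≤ ε₀ ^ 2 * (a * x 2 ^ 2 + b * y 2 ^ 2) / 2 := by gcongr
        _ = a * (ε₀ ^ 2 * x 2 ^ 2 / 2) + b * (ε₀ ^ 2 * y 2 ^ 2 / 2) := by ring
        _ ≤ a * (ε₀ * x 1) + b * (ε₀ * y 1) := by gcongr
        _ = _ := by ring
    · refine ⟨0, ?_⟩
      show ε₀ ^ 2 * (0 : ℝ) ^ 2 / 2 ≤ ε₀ * 0
      simp
    · intro γ hγ x hx
      have hx' : ε₀ ^ 2 * x 2 ^ 2 / 2 ≤ ε₀ * x 1 := hx
      have h1 := hWh hγ ![x 1, x 2]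
      have h2 : x = ![x 0, (![x 1, x 2] : Fin 2 → ℝ) 0, (![x 1, x 2] : Fin 2 → ℝ) 1] := by
        ext i
        fin_cases i <;> rfl
      have h3 := apply_vec γ (hT γ hγ) (x 0) ![x 1, x 2]
      rw [← h2] at h3
      have h4 : γ x 1 = act γ ![x 1, x 2] 0 := congrFun h3 1
      have h5 : γ x 2 = act γ ![x 1, x 2] 1 := congrFun h3 2
      show ε₀ ^ 2 * (γ x 2) ^ 2 / 2 ≤ ε₀ * (γ x 1)
      rw [h4, h5]
      have h6 : act γ ![x 1, x 2] 0 - ε₀ * act γ ![x 1, x 2] 1 ^ 2 / 2 =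
          lin γ 1 1 * (x 1 - ε₀ * x 2 ^ 2 / 2) := h1
      have h7 : 0 ≤ lin γ 1 1 * (ε₀ * (x 1 - ε₀ * x 2 ^ 2 / 2)) := by
        apply mul_nonneg (hT γ hγ).2.2.2.2.1.le
        linarith
      have h8 : ε₀ * act γ ![x 1, x 2] 0 - ε₀ ^ 2 * act γ ![x 1, x 2] 1 ^ 2 / 2 =
          lin γ 1 1 * (ε₀ * (x 1 - ε₀ * x 2 ^ 2 / 2)) := by
        linear_combination ε₀ * h6
      linarith
  have hbad : (![0, -ε₀, 0] : E) ∈ C := by
    rw [hCuniv]
    exact mem_univ _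
  have hbad' : ε₀ ^ 2 * (0 : ℝ) ^ 2 / 2 ≤ ε₀ * (-ε₀) := hbad
  have : 0 < ε₀ ^ 2 := by positivity
  nlinarith

end core

theorem b2iii (hnorm : S_norm) (hdN : S_densN) (hnd : S_nondisc) : S_b2iii := by
  rintro D a₀ ⟨hT, hP⟩ ha ⟨g, hg, hg1⟩
  exfalso
  -- an element with `χ₂ < 1`
  obtain ⟨f₀, hf₀, hβ⟩ : ∃ f₀ ∈ D.Γ, lin f₀ 2 2 < 1 := by
    rcases lt_or_gt_of_ne hg1 with h | h
    · exact ⟨g, hg, h⟩
    · refine ⟨g⁻¹, D.Γ.inv_mem hg, ?_⟩
      rw [(tri_inv (hT g hg)).2]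
      exact inv_lt_one_of_one_lt₀ h
  obtain ⟨-, -, -, h0, h1, h2, h3⟩ := id (hT f₀ hf₀)
  have hμ : lin f₀ 0 0 * lin f₀ 2 2 = lin f₀ 2 2 ^ (a₀ + 1) := by
    rw [hP f₀ hf₀, Real.rpow_add_one h2.ne']
  have hμ1 : 1 < lin f₀ 0 0 * lin f₀ 2 2 := by
    rw [hμ]
    exact Real.one_lt_rpow_of_pos_of_lt_one_of_neg h2 hβ (by linarith)
  have hα : lin f₀ 1 1 < 1 := by
    by_contra hcon
    push Not at hcon
    nlinarith
  have hμ0 : 1 < lin f₀ 0 0 := by nlinarith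
  obtain ⟨φ, D', hT', hφ, hφ1, hΓ, hΩ, hmem, e1, e2, e3, e4⟩ := hnorm D f₀ hT hf₀
  obtain ⟨hfm, hfd⟩ := hmem f₀ hf₀
  refine core_false (D := D') (f := φ * f₀ * φ⁻¹) hnd hT' hfm (e1 (by linarith)) (e3 (by linarith)) ?_ ?_ ?_ ?_ ?_
  · intro i
    apply e4
    fin_cases i
    · exact hμ0.ne'
    · exact hα.ne
    · exact hβ.ne
  · rw [hfd]; exact hα
  · rw [hfd]; exact hβ
  · rw [hfd, hfd]; exact e2
  · refine hdN D' hT' ⟨_, hfm, ?_⟩
    rw [hfd]
    exact hβ.ne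

end Pool.Agent.Helper23.K3
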