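import Pool.Agent.Helper23.K3.conePD

/-!
# The end of the irreducible case: an invariant sharp cone
-/

set_option autoImplicit false

open Set Filter Topology Matrix

namespace Pool.Agent.Helper23.K3

open Pool.Agent.Helper77.K3

/-- Locally finite sums of `C¹` functions. -/
lemma cd_finsum {G : Type} {V : Type} [NormedAddCommGroup V] [NormedSpace ℝ V] (f : G → E → V)
    (X : Set E) (hX : IsOpen X) (h1 : ∀ g, ContDiffOn ℝ 1 (f g) X)
    (h2 : ∀ x ∈ X, ∃ N ∈ 𝓝 x, {g | ∃ y ∈ N, f g y ≠ 0}.Finite) :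
    ContDiffOn ℝ 1 (fun x => ∑ᶠ g, f g x) X := by
  intro x hx
  obtain ⟨N, hN, hfin⟩ := h2 x hx
  apply ContDiffAt.contDiffWithinAt
  have heq : (fun x => ∑ᶠ g, f g x) =ᶠ[𝓝 x] fun x => ∑ g ∈ hfin.toFinset, f g x := by
    filter_upwards [hN] with y hy
    apply finsum_eq_sum_of_support_subset
    intro g hg
    rw [Set.Finite.coe_toFinset]
    exact ⟨y, hy, hg⟩
  refine ContDiffAt.congr_of_eventuallyEq ?_ heq
  exact ContDiffAt.sum fun g _ => (h1 g).contDiffAt (hX.mem_nhds hx)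

lemma cone_add {C : Set E} (hconv : Convex ℝ C) (hcone : ∀ x ∈ C, ∀ t : ℝ, 0 ≤ t → t • x ∈ C) :
    ∀ x ∈ C, ∀ y ∈ C, x + y ∈ C := by
  intro x hx y hy
  have h := hconv hx hy (a := 1 / 2) (b := 1 / 2) (by norm_num) (by norm_num) (by norm_num)
  have h2 := hcone _ h 2 (by norm_num)
  have : (2 : ℝ) • ((1 / 2 : ℝ) • x + (1 / 2 : ℝ) • y) = x + y := by
    rw [smul_add, smul_smul, smul_smul]
    norm_num
  rwa [this] at h2

lemma int_add {C : Set E} (hadd : ∀ x ∈ C, ∀ y ∈ C, x + y ∈ C) :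
    ∀ x ∈ interior C, ∀ y ∈ C, x + y ∈ interior C := by
  intro x hx y hy
  have ho : IsOpen {z : E | z - y ∈ interior C} := isOpen_interior.preimage (by fun_prop)
  have hs : {z : E | z - y ∈ interior C} ⊆ C := by
    intro z hz
    have := hadd _ (interior_subset hz) y hy
    rwa [sub_add_cancel] at this
  exact interior_maximal hs ho (by simpa using hx)

lemma int_smul {C : Set E} (hcone : ∀ x ∈ C, ∀ t : ℝ, 0 ≤ t → t • x ∈ C) :
    ∀ x ∈ interior C, ∀ t : ℝ, 0 < t → t • x ∈ interior C := by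
  intro x hx t ht
  have ho : IsOpen {z : E | t⁻¹ • z ∈ interior C} := isOpen_interior.preimage (by fun_prop)
  have hs : {z : E | t⁻¹ • z ∈ interior C} ⊆ C := by
    intro z hz
    have := hcone _ (interior_subset hz) t ht.le
    rwa [smul_smul, mul_inv_cancel₀ ht.ne', one_smul] at this
  apply interior_maximal hs ho
  show _ ∈ interior C
  rwa [smul_smul, inv_mul_cancel₀ ht.ne', one_smul]

lemma int_mat {C : Set E} (Γ : Subgroup Aff3) (hinv : ∀ γ ∈ Γ, ∀ x ∈ C, mat γ *ᵥ x ∈ C) :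
    ∀ γ ∈ Γ, ∀ x ∈ interior C, mat γ *ᵥ x ∈ interior C := by
  intro γ hγ x hx
  have ho : IsOpen {z : E | mat γ⁻¹ *ᵥ z ∈ interior C} := isOpen_interior.preimage (by fun_prop)
  have hs : {z : E | mat γ⁻¹ *ᵥ z ∈ interior C} ⊆ C := by
    intro z hz
    have := hinv γ hγ _ (interior_subset hz)
    rwa [Matrix.mulVec_mulVec, (mat_mul_inv γ).1, Matrix.one_mulVec] at this
  apply interior_maximal hs ho
  show _ ∈ interior C
  rwa [Matrix.mulVec_mulVec, (mat_mul_inv γ).2, Matrix.one_mulVec]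

lemma aff_eq (γ : Aff3) (x : E) : γ x = mat γ *ᵥ x + γ 0 := by
  obtain ⟨-, -, -, -, -, -, -, -, h, -⟩ := Pool.Agent.Helper33.K3.coord
  rw [Pool.Agent.Helper33.K3.apply_eq, h]

lemma aff_cd (γ : Aff3) : ContDiff ℝ 1 (fun x : E => γ x) := by
  have : (fun x : E => γ x) = fun x => mat γ *ᵥ x + γ 0 := funext (aff_eq γ)
  rw [this]
  have h2 : ContDiff ℝ 1 (fun x : E => mat γ *ᵥ x) := by
    rw [contDiff_pi]
    intro i
    have : (fun x : E => (mat γ *ᵥ x) i) = fun x => ∑ j, mat γ i j * x j := by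
      funext x
      rfl
    rw [this]
    fun_prop
  exact h2.add contDiff_const

lemma mat_cd (A : M3) : ContDiff ℝ 1 (fun x : E => A *ᵥ x) := by
  rw [contDiff_pi]
  intro i
  have : (fun x : E => (A *ᵥ x) i) = fun x => ∑ j, A i j * x j := by
    funext x
    rfl
  rw [this]
  fun_prop

/-- Bump functions. -/
lemma bump {P U : Set E} (hP : IsCompact P) (hU : IsOpen U) (hPU : P ⊆ U) :
    ∃ (b : E → ℝ) (L : Set E), IsCompact L ∧ L ⊆ U ∧ ContDiff ℝ 1 b ∧ (∀ x, 0 ≤ b x) ∧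
      (∀ x ∈ P, 0 < b x) ∧ (∀ x, b x ≠ 0 → x ∈ L) := by
  obtain ⟨L, hL, hPL, hLU⟩ := exists_compact_between hP hU hPU
  obtain ⟨b, hb, hbd, hbr⟩ := (isOpen_interior (s := L)).exists_contDiff_support_eq (n := 1)
  have h0 : ∀ x, 0 ≤ b x := fun x => (hbr ⟨x, rfl⟩).1
  refine ⟨b, L, hL, hLU, hbd, h0, ?_, ?_⟩
  · intro x hx
    have : x ∈ Function.support b := by
      rw [hb]
      exact hPL hx
    exact lt_of_le_of_ne (h0 x) (Ne.symm this)
  · intro x hx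
    have : x ∈ Function.support b := hx
    rw [hb] at this
    exact interior_subset this

lemma finite_pre (D : KData) (S : Set Aff3) (hS : S.Finite) :
    {g : D.Γ | (g : Aff3)⁻¹ ∈ S}.Finite := by
  refine Set.Finite.preimage (f := fun g : D.Γ => (g : Aff3)⁻¹) ?_ hS
  intro a _ b _ hab
  exact Subtype.ext (inv_injective hab)

/-- An equivariant map to the interior of the cone. -/
lemma exists_v (D : KData) (C : Set E) (hconv : Convex ℝ C)
    (hcone : ∀ x ∈ C, ∀ t : ℝ, 0 ≤ t → t • x ∈ C) (hne : (interior C).Nonempty)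
    (hinv : ∀ γ ∈ D.Γ, ∀ x ∈ C, mat γ *ᵥ x ∈ C) :
    ∃ v : E → E, ContDiffOn ℝ 1 v D.Ω ∧ (∀ x ∈ D.Ω, v x ∈ interior C) ∧
      ∀ γ ∈ D.Γ, ∀ x ∈ D.Ω, v (γ x) = mat γ *ᵥ v x := by
  obtain ⟨c₀, hc₀⟩ := hne
  obtain ⟨F, hFΩ, hF, hcov⟩ := D.cocompact
  obtain ⟨ρ, L, hL, hLΩ, hρ, hρ0, hρF, hρL⟩ := bump hF D.isOpen hFΩ
  have hm := Pool.Agent.Helper33.K3.mat_mul
  set f : D.Γ → E → E := fun g x => ρ ((g : Aff3)⁻¹ x) • (mat (g : Aff3) *ᵥ c₀) with hf
  have hfin : ∀ x ∈ D.Ω, ∃ N ∈ 𝓝 x, {g | ∃ y ∈ N, f g y ≠ 0}.Finite := by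
    intro x hx
    obtain ⟨N, hN, hxN, hNΩ⟩ := exists_compact_subset D.isOpen hx
    refine ⟨N, mem_interior_iff_mem_nhds.1 hxN, ?_⟩
    refine (finite_pre D _ (D.proper (N ∪ L) (union_subset hNΩ hLΩ) (hN.union hL))).subset ?_
    rintro g ⟨y, hy, hgy⟩
    have h1 : ρ ((g : Aff3)⁻¹ y) ≠ 0 := fun h => hgy (by rw [hf]; simp only [h, zero_smul])
    exact ⟨D.Γ.inv_mem g.2, (g : Aff3)⁻¹ y, ⟨y, Or.inl hy, rfl⟩, Or.inr (hρL _ h1)⟩
  have hfs : ∀ x ∈ D.Ω, (Function.support fun g => f g x).Finite := by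
    intro x hx
    obtain ⟨N, hN, h⟩ := hfin x hx
    exact h.subset fun g hg => ⟨x, mem_of_mem_nhds hN, hg⟩
  refine ⟨fun x => ∑ᶠ g, f g x, ?_, ?_, ?_⟩
  · apply cd_finsum f D.Ω D.isOpen _ hfin
    intro g
    apply ContDiff.contDiffOn
    exact (hρ.comp (aff_cd _)).smul contDiff_const
  · intro x hx
    have hadd := cone_add hconv hcone
    obtain ⟨γ, hγ, hγx⟩ := hcov x hx
    set g₀ : D.Γ := ⟨γ, hγ⟩⁻¹ with hg₀
    have hpos : f g₀ x ∈ interior C := by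
      apply int_smul hcone _ (int_mat D.Γ hinv _ g₀.2 _ hc₀)
      apply hρF
      have : (g₀ : Aff3)⁻¹ = γ := by rw [hg₀]; simp
      rw [this]
      exact hγx
    have hall : ∀ g, f g x ∈ C := fun g =>
      hcone _ (hinv _ g.2 _ (interior_subset hc₀)) _ (hρ0 _)
    show (∑ᶠ g, f g x) ∈ interior C
    classical
    rw [finsum_eq_sum_of_support_subset (s := insert g₀ (hfs x hx).toFinset) _ (by
      intro g hg
      rw [Finset.coe_insert, Set.Finite.coe_toFinset]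
      exact Or.inr hg)]
    rw [← Finset.add_sum_erase _ _ (Finset.mem_insert_self _ _)]
    apply int_add hadd _ hpos
    have h0 : (0 : E) ∈ C := by
      have := hcone _ (interior_subset hc₀) 0 le_rfl
      rwa [zero_smul] at this
    exact Finset.sum_induction _ (· ∈ C) (fun a b ha hb => hadd a ha b hb) h0 (fun g _ => hall g)
  · intro γ hγ x hx
    show (∑ᶠ g, f g (γ x)) = mat γ *ᵥ (∑ᶠ g, f g x)
    rw [← finsum_comp_equiv (Equiv.mulLeft (⟨γ, hγ⟩ : D.Γ))]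
    have hl : mat γ *ᵥ (∑ᶠ g, f g x) = (Matrix.toLin' (mat γ)).toAddMonoidHom (∑ᶠ g, f g x) := rfl
    rw [hl, AddMonoidHom.map_finsum _ (hfs x hx)]
    apply finsum_congr
    intro g
    show ρ ((γ * (g : Aff3))⁻¹ (γ x)) • (mat (γ * (g : Aff3)) *ᵥ c₀) =
      mat γ *ᵥ (ρ ((g : Aff3)⁻¹ x) • (mat (g : Aff3) *ᵥ c₀))
    rw [Matrix.mulVec_smul, Matrix.mulVec_mulVec, hm]
    congr 2
    rw [_root_.mul_inv_rev]
    show (g : Aff3)⁻¹ (γ⁻¹ (γ x)) = _
    congr 1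
    show (γ⁻¹ * γ) x = x
    rw [inv_mul_cancel]
    rfl

/-- A homogeneous map `Θ` of degree `0`, which is affinely equivariant. -/
lemma exists_theta (D : KData) (C : Set E) (ell : E) (κ : ℝ) (hdet : ∀ γ ∈ D.Γ, |(mat γ).det| = 1)
    (hC : IsClosed C) (hconv : Convex ℝ C)
    (hcone : ∀ x ∈ C, ∀ t : ℝ, 0 ≤ t → t • x ∈ C) (hκ : 0 < κ)
    (hell : ∀ x ∈ C, κ * ‖x‖ ≤ ell ⬝ᵥ x) (hne : (interior C).Nonempty)
    (hinv : ∀ γ ∈ D.Γ, ∀ x ∈ C, mat γ *ᵥ x ∈ C)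
    (hbd : ∀ R : ℝ, {γ : Aff3 | γ ∈ D.Γ ∧ ∀ i j, |lin γ i j| ≤ R}.Finite)
    (P : Set E) (hP : IsCompact P) (hPC : P ⊆ interior C) :
    ∃ (Θ : E → E) (W : Set E), IsOpen W ∧ W ⊆ interior C ∧ P ⊆ W ∧
      (∀ x ∈ W, ∀ t : ℝ, 0 < t → t • x ∈ W) ∧ (∀ γ ∈ D.Γ, ∀ x ∈ W, mat γ *ᵥ x ∈ W) ∧
      ContDiffOn ℝ 1 Θ W ∧ (∀ x, ∀ t : ℝ, 0 < t → Θ (t • x) = Θ x) ∧
      ∀ γ ∈ D.Γ, ∀ x ∈ W, Θ (mat γ *ᵥ x) = γ (Θ x) := by
  have hm := Pool.Agent.Helper33.K3.mat_mul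
  have hadd := cone_add hconv hcone
  -- the functional is positive on the interior
  have hpos : ∀ x ∈ interior C, 0 < ell ⬝ᵥ x := by
    intro x hx
    have hx0 : x ≠ 0 := by
      rintro rfl
      have hn : C ∈ 𝓝 (0 : E) := mem_interior_iff_mem_nhds.1 hx
      obtain ⟨δ, hδ, hδC⟩ := Metric.mem_nhds_iff.1 hn
      have h1 : ∀ y : E, ‖y‖ < δ → y ∈ C := fun y hy => hδC (by simpa using hy)
      have hy : ‖(δ / 2) • e 0‖ = δ / 2 := by
        rw [norm_smul, norm_e, Real.norm_eq_abs, abs_of_pos (by positivity), mul_one]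
      have h2 := hell _ (h1 ((δ / 2) • e 0) (by rw [hy]; linarith))
      have h3 := hell _ (h1 (-((δ / 2) • e 0)) (by rw [norm_neg, hy]; linarith))
      rw [dotProduct_neg, norm_neg] at h3
      rw [hy] at h2 h3
      nlinarith
    exact lt_of_lt_of_le (mul_pos hκ (norm_pos_iff.2 hx0)) (hell x (interior_subset hx))
  set P' : Set E := (fun x => (ell ⬝ᵥ x)⁻¹ • x) '' P with hP'
  have hP'c : IsCompact P' := by
    apply hP.image_of_continuousOn
    have h1 : ContinuousOn (fun x : E => (ell ⬝ᵥ x)⁻¹) P := by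
      apply ContinuousOn.inv₀
      · fun_prop
      · intro x hx
        exact (hpos x (hPC hx)).ne'
    exact h1.smul continuousOn_id
  have hP'C : P' ⊆ interior C := by
    rintro _ ⟨x, hx, rfl⟩
    exact int_smul hcone x (hPC hx) _ (inv_pos.2 (hpos x (hPC hx)))
  obtain ⟨b, L, hL, hLC, hb, hb0, hbP, hbL⟩ := bump hP'c isOpen_interior hP'C
  set χ : E → ℝ := fun c => b ((ell ⬝ᵥ c)⁻¹ • c) with hχ
  have hχ0 : ∀ c, 0 ≤ χ c := fun c => hb0 _
  have hχt : ∀ c, ∀ t : ℝ, 0 < t → χ (t • c) = χ c := by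
    intro c t ht
    show b _ = b _
    congr 1
    rw [dotProduct_smul, smul_eq_mul, smul_smul, mul_inv, mul_comm t⁻¹, mul_assoc,
      inv_mul_cancel₀ ht.ne', mul_one]
  have hχd : ContDiffOn ℝ 1 χ (interior C) := by
    apply hb.comp_contDiffOn
    have h1 : ContDiffOn ℝ 1 (fun x : E => (ell ⬝ᵥ x)⁻¹) (interior C) := by
      apply ContDiffOn.inv
      · apply ContDiff.contDiffOn
        have h2 : ContDiff ℝ 1 (fun c : E => ∑ j, ell j * c j) := by fun_prop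
        exact h2
      · intro x hx
        exact (hpos x hx).ne'
    exact h1.smul contDiffOn_id
  have hUm := int_mat D.Γ hinv
  set f : D.Γ → E → ℝ := fun g c => χ (mat (g : Aff3)⁻¹ *ᵥ c) with hf
  have hfd : ∀ g, ContDiffOn ℝ 1 (f g) (interior C) := by
    intro g
    apply hχd.comp (mat_cd _).contDiffOn
    intro x hx
    exact hUm _ (D.Γ.inv_mem g.2) x hx
  have hfin : ∀ x ∈ interior C, ∃ N ∈ 𝓝 x, {g | ∃ y ∈ N, f g y ≠ 0}.Finite := by
    intro x hx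
    obtain ⟨N, hN, hxN, hNC⟩ := exists_compact_subset isOpen_interior hx
    refine ⟨N, mem_interior_iff_mem_nhds.1 hxN, ?_⟩
    refine (finite_pre D _ (conePD D C ell κ hdet hC hconv hcone hκ hell hne hinv hbd (N ∪ L)
      (hN.union hL) (union_subset hNC hLC))).subset ?_
    rintro g ⟨y, hy, hgy⟩
    exact ⟨D.Γ.inv_mem g.2, y, Or.inl hy, _,
      inv_pos.2 (hpos _ (hUm _ (D.Γ.inv_mem g.2) y (hNC hy))), Or.inr (hbL _ hgy)⟩
  have hfs : ∀ x ∈ interior C, (Function.support fun g => f g x).Finite := by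
    intro x hx
    obtain ⟨N, hN, h⟩ := hfin x hx
    exact h.subset fun g hg => ⟨x, mem_of_mem_nhds hN, hg⟩
  set Dn : E → ℝ := fun c => ∑ᶠ g, f g c with hDn
  set Nn : E → E := fun c => ∑ᶠ g, f g c • (g : Aff3) 0 with hNn
  have hDd : ContDiffOn ℝ 1 Dn (interior C) := cd_finsum f _ isOpen_interior hfd hfin
  have hNd : ContDiffOn ℝ 1 Nn (interior C) := by
    apply cd_finsum (fun g c => f g c • (g : Aff3) 0) _ isOpen_interior
    · intro g
      exact (hfd g).smul contDiffOn_const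
    · intro x hx
      obtain ⟨N, hN, h⟩ := hfin x hx
      refine ⟨N, hN, h.subset ?_⟩
      rintro g ⟨y, hy, hgy⟩
      exact ⟨y, hy, fun h => hgy (by simp only [h, zero_smul])⟩
  have hDt : ∀ c, ∀ t : ℝ, 0 < t → Dn (t • c) = Dn c := by
    intro c t ht
    apply finsum_congr
    intro g
    show χ _ = χ _
    rw [Matrix.mulVec_smul, hχt _ t ht]
  have hNt : ∀ c, ∀ t : ℝ, 0 < t → Nn (t • c) = Nn c := by
    intro c t ht
    apply finsum_congr
    intro g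
    show χ _ • _ = χ _ • _
    rw [Matrix.mulVec_smul, hχt _ t ht]
  have hcomp : ∀ (γ : Aff3) (g : Aff3) (c : E),
      mat (γ * g)⁻¹ *ᵥ (mat γ *ᵥ c) = mat g⁻¹ *ᵥ c := by
    intro γ g c
    rw [_root_.mul_inv_rev, Matrix.mulVec_mulVec, ← hm, mul_assoc, inv_mul_cancel, mul_one]
  have hDγ : ∀ γ ∈ D.Γ, ∀ c, Dn (mat γ *ᵥ c) = Dn c := by
    intro γ hγ c
    show (∑ᶠ g, f g (mat γ *ᵥ c)) = ∑ᶠ g, f g c
    rw [← finsum_comp_equiv (Equiv.mulLeft (⟨γ, hγ⟩ : D.Γ))]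
    apply finsum_congr
    intro g
    show χ (mat (γ * (g : Aff3))⁻¹ *ᵥ (mat γ *ᵥ c)) = χ _
    rw [hcomp]
  have hNγ : ∀ γ ∈ D.Γ, ∀ c ∈ interior C, Nn (mat γ *ᵥ c) = mat γ *ᵥ Nn c + Dn c • γ 0 := by
    intro γ hγ c hc
    show (∑ᶠ g : D.Γ, f g (mat γ *ᵥ c) • (g : Aff3) 0) = _
    rw [← finsum_comp_equiv (Equiv.mulLeft (⟨γ, hγ⟩ : D.Γ))]
    have hl : mat γ *ᵥ Nn c = (Matrix.toLin' (mat γ)).toAddMonoidHom (Nn c) := rfl
    have hs1 : (Function.support fun g : D.Γ => f g c • (g : Aff3) 0).Finite :=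
      (hfs c hc).subset fun g hg h => hg (by simp only [h, zero_smul])
    rw [hl, hNn, AddMonoidHom.map_finsum _ hs1, hDn, finsum_smul, ← finsum_add_distrib]
    · apply finsum_congr
      intro g
      show χ (mat (γ * (g : Aff3))⁻¹ *ᵥ (mat γ *ᵥ c)) • (γ * (g : Aff3)) 0 =
        mat γ *ᵥ (χ (mat (g : Aff3)⁻¹ *ᵥ c) • (g : Aff3) 0) + χ (mat (g : Aff3)⁻¹ *ᵥ c) • γ 0
      rw [hcomp, Matrix.mulVec_smul, ← smul_add, ← aff_eq]
      rfl
    · refine hs1.subset ?_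
      intro g hg h
      apply hg
      show (Matrix.toLin' (mat γ)).toAddMonoidHom (f g c • (g : Aff3) 0) = 0
      have h' : f g c • (g : Aff3) 0 = 0 := h
      rw [h', map_zero]
    · refine (hfs c hc).subset ?_
      intro g hg h
      apply hg
      show f g c • γ 0 = 0
      have h' : f g c = 0 := h
      rw [h', zero_smul]
  refine ⟨fun c => (Dn c)⁻¹ • Nn c, {c | c ∈ interior C ∧ Dn c ≠ 0}, ?_, fun c hc => hc.1, ?_, ?_, ?_,
    ?_, ?_, ?_⟩
  · exact hDd.continuousOn.isOpen_inter_preimage isOpen_interior isOpen_ne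
  · intro x hx
    refine ⟨hPC hx, ?_⟩
    have h1 : 0 < f 1 x := by
      show 0 < b _
      have : mat ((1 : D.Γ) : Aff3)⁻¹ *ᵥ x = x := by
        rw [show ((1 : D.Γ) : Aff3)⁻¹ = 1 by simp, Pool.Agent.Helper33.K3.mat_one,
          Matrix.one_mulVec]
      rw [this]
      exact hbP _ ⟨x, hx, rfl⟩
    have h2 : 0 < Dn x := finsum_pos (fun g => hχ0 _) ⟨1, h1⟩ (hfs x (hPC hx))
    exact h2.ne'
  · rintro x ⟨hx, hx2⟩ t ht
    exact ⟨int_smul hcone x hx t ht, by rw [hDt x t ht]; exact hx2⟩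
  · rintro γ hγ x ⟨hx, hx2⟩
    exact ⟨hUm γ hγ x hx, by rw [hDγ γ hγ x]; exact hx2⟩
  · have h1 : ContDiffOn ℝ 1 (fun c => (Dn c)⁻¹) {c | c ∈ interior C ∧ Dn c ≠ 0} :=
      (hDd.mono fun c hc => hc.1).inv fun c hc => hc.2
    exact h1.smul (hNd.mono fun c hc => hc.1)
  · intro x t ht
    simp only [hDt x t ht, hNt x t ht]
  · rintro γ hγ x ⟨hx, hx2⟩
    simp only [hDγ γ hγ x, hNγ γ hγ x hx]
    rw [aff_eq γ ((Dn x)⁻¹ • Nn x), smul_add, Matrix.mulVec_smul, smul_smul, inv_mul_cancel₀ hx2,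
      one_smul]

theorem coneEnd (hNS : S_NS) : S_coneEnd := by
  intro D C ell κ hC hconv hcone hκ hell hne hinv hbd
  obtain ⟨-, -, -, -, -, -, -, hdetc, -, -⟩ := Pool.Agent.Helper33.K3.coord
  have hdet : ∀ γ ∈ D.Γ, |(mat γ).det| = 1 := by
    intro γ hγ
    rw [hdetc]
    exact D.det γ hγ
  obtain ⟨v, hv, hvC, hvγ⟩ := exists_v D C hconv hcone hne hinv
  obtain ⟨F, hFΩ, hF, hcov⟩ := D.cocompact
  have hvF : IsCompact (v '' F) := hF.image_of_continuousOn (hv.continuousOn.mono hFΩ)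
  have hvFC : v '' F ⊆ interior C := by
    rintro _ ⟨x, hx, rfl⟩
    exact hvC x (hFΩ hx)
  obtain ⟨Θ, W, hW, hWC, hPW, hWt, hWγ, hΘ, hΘt, hΘγ⟩ :=
    exists_theta D C ell κ hdet hC hconv hcone hκ hell hne hinv hbd _ hvF hvFC
  have hvW : ∀ x ∈ D.Ω, v x ∈ W := by
    intro x hx
    obtain ⟨γ, hγ, hγx⟩ := hcov x hx
    have h1 : v (γ x) ∈ W := hPW ⟨γ x, hγx, rfl⟩
    rw [hvγ γ hγ x hx] at h1
    have h2 := hWγ _ (D.Γ.inv_mem hγ) _ h1
    rwa [Matrix.mulVec_mulVec, (mat_mul_inv γ).2, Matrix.one_mulVec] at h2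
  refine hNS D (fun x => Θ (v x)) (hΘ.comp hv hvW) ?_ ?_
  · intro γ hγ x hx
    show Θ (v (γ x)) = γ (Θ (v x))
    rw [hvγ γ hγ x hx, hΘγ γ hγ _ (hvW x hx)]
  · intro x hx
    have hd1 : HasFDerivAt Θ (fderiv ℝ Θ (v x)) (v x) :=
      ((hΘ.contDiffAt (hW.mem_nhds (hvW x hx))).differentiableAt (by norm_num)).hasFDerivAt
    have hd2 : HasFDerivAt v (fderiv ℝ v x) x :=
      ((hv.contDiffAt (D.isOpen.mem_nhds hx)).differentiableAt (by norm_num)).hasFDerivAt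
    have hker : fderiv ℝ Θ (v x) (v x) = 0 := by
      have hl : HasDerivAt (fun t : ℝ => t • v x) (v x) 1 := by
        have := (hasDerivAt_id (1 : ℝ)).smul_const (v x)
        simpa using this
      have h1 : HasDerivAt (fun t : ℝ => Θ (t • v x)) (fderiv ℝ Θ (v x) (v x)) 1 := by
        have h0 : HasFDerivAt Θ (fderiv ℝ Θ (v x)) ((1 : ℝ) • v x) := by rwa [one_smul]
        exact h0.comp_hasDerivAt 1 hl
      have h2 : HasDerivAt (fun t : ℝ => Θ (t • v x)) 0 1 := by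
        have hc : HasDerivAt (fun _ : ℝ => Θ (v x)) (0 : E) 1 := hasDerivAt_const _ _
        apply hc.congr_of_eventuallyEq
        filter_upwards [lt_mem_nhds (show (0 : ℝ) < 1 by norm_num)] with t ht
        exact hΘt _ t ht
      exact h1.unique h2
    have hv0 : v x ≠ 0 := by
      intro h0
      have hn : C ∈ 𝓝 (0 : E) := by
        have := mem_interior_iff_mem_nhds.1 (hvC x hx)
        rwa [h0] at this
      obtain ⟨δ, hδ, hδC⟩ := Metric.mem_nhds_iff.1 hn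
      have h1 : ∀ y : E, ‖y‖ < δ → y ∈ C := fun y hy => hδC (by simpa using hy)
      have hy : ‖(δ / 2) • e 0‖ = δ / 2 := by
        rw [norm_smul, norm_e, Real.norm_eq_abs, abs_of_pos (by positivity), mul_one]
      have h2 := hell _ (h1 ((δ / 2) • e 0) (by rw [hy]; linarith))
      have h3 := hell _ (h1 (-((δ / 2) • e 0)) (by rw [norm_neg, hy]; linarith))
      rw [dotProduct_neg, norm_neg] at h3
      rw [hy] at h2 h3
      nlinarith
    have hcomp : HasFDerivAt (fun x => Θ (v x)) ((fderiv ℝ Θ (v x)).comp (fderiv ℝ v x)) x :=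
      hd1.comp x hd2
    rw [hcomp.fderiv]
    have hdet0 : (fderiv ℝ Θ (v x)).det = 0 := by
      show LinearMap.det ((fderiv ℝ Θ (v x)) : E →ₗ[ℝ] E) = 0
      rw [LinearMap.det_eq_zero_iff_ker_ne_bot]
      intro hb
      apply hv0
      have : v x ∈ LinearMap.ker ((fderiv ℝ Θ (v x)) : E →ₗ[ℝ] E) := hker
      rwa [hb, Submodule.mem_bot] at this
    show LinearMap.det (((fderiv ℝ Θ (v x)) : E →ₗ[ℝ] E).comp ((fderiv ℝ v x) : E →ₗ[ℝ] E)) = 0
    rw [LinearMap.det_comp]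
    have h5 : LinearMap.det ((fderiv ℝ Θ (v x)) : E →ₗ[ℝ] E) = 0 := hdet0
    rw [h5, zero_mul]

end Pool.Agent.Helper23.K3
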