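import Pool.Agent.Helper77.K3.DefsI
import Pool.Agent.Helper33.K3.coord

/-!
# Proper action of the linear holonomy on an invariant cone, modulo scaling
-/

set_option autoImplicit false

open Set Filter Topology Matrix

namespace Pool.Agent.Helper23.K3

open Pool.Agent.Helper77.K3

lemma mat_mul_inv (γ : Aff3) : mat γ * mat γ⁻¹ = 1 ∧ mat γ⁻¹ * mat γ = 1 := by
  have hc := Pool.Agent.Helper33.K3.coord
  obtain ⟨-, -, -, -, hm, h1, -, -, -, -⟩ := hc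
  constructor
  · rw [← hm, mul_inv_cancel, h1]
  · rw [← hm, inv_mul_cancel, h1]

lemma entry_le (A : M3) (i j : Fin 3) : |A i j| ≤ ‖A *ᵥ e j‖ := by
  have : (A *ᵥ e j) i = A i j := by
    unfold e
    rw [Matrix.mulVec_single_one]
    rfl
  rw [← this, ← Real.norm_eq_abs]
  exact norm_le_pi_norm _ i

lemma norm_e (j : Fin 3) : ‖e j‖ = 1 := by
  unfold e
  rw [Pi.norm_single]
  simp

lemma det_le (A : M3) (N : ℝ) (h : ∀ i j, |A i j| ≤ N) : |A.det| ≤ 6 * N ^ 3 := by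
  have h0 : 0 ≤ N := (abs_nonneg _).trans (h 0 0)
  have hp : ∀ i j i' j' i'' j'', |A i j * A i' j' * A i'' j''| ≤ N ^ 3 := by
    intro i j i' j' i'' j''
    rw [abs_mul, abs_mul]
    calc |A i j| * |A i' j'| * |A i'' j''| ≤ N * N * N := by
          gcongr <;> exact h _ _
      _ = N ^ 3 := by ring
  rw [Matrix.det_fin_three]
  have a1 := abs_le.1 (hp 0 0 1 1 2 2)
  have a2 := abs_le.1 (hp 0 0 1 2 2 1)
  have a3 := abs_le.1 (hp 0 1 1 0 2 2)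
  have a4 := abs_le.1 (hp 0 1 1 2 2 0)
  have a5 := abs_le.1 (hp 0 2 1 0 2 1)
  have a6 := abs_le.1 (hp 0 2 1 1 2 0)
  rw [abs_le]
  constructor <;> linarith [a1.1, a1.2, a2.1, a2.2, a3.1, a3.2, a4.1, a4.2, a5.1, a5.2, a6.1, a6.2]

/-- A matrix which preserves the cone is bounded in terms of its value at an interior point. -/
lemma cone_bound (C : Set E) (ell : E) (κ δ : ℝ) (hκ : 0 < κ) (hδ : 0 < δ)
    (hell : ∀ x ∈ C, κ * ‖x‖ ≤ ell ⬝ᵥ x) (A : M3) (hA : ∀ x ∈ C, A *ᵥ x ∈ C) (x : E)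
    (hx : ∀ y, ‖y‖ ≤ δ → x + y ∈ C) (i j : Fin 3) :
    κ * δ * |A i j| ≤ ell ⬝ᵥ (A *ᵥ x) := by
  have h1 := hell _ (hA _ (hx (δ • e j) (by rw [norm_smul, norm_e, Real.norm_eq_abs, abs_of_pos hδ, mul_one])))
  have h2 := hell _ (hA _ (hx (-(δ • e j)) (by
    rw [norm_neg, norm_smul, norm_e, Real.norm_eq_abs, abs_of_pos hδ, mul_one])))
  rw [Matrix.mulVec_add, dotProduct_add] at h1 h2
  rw [Matrix.mulVec_neg, dotProduct_neg] at h2
  have h3 : ‖(2 : ℝ) • (A *ᵥ (δ • e j))‖ ≤ ‖A *ᵥ x + A *ᵥ (δ • e j)‖ + ‖A *ᵥ x + -(A *ᵥ (δ • e j))‖ := by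
    have : (2 : ℝ) • (A *ᵥ (δ • e j)) = (A *ᵥ x + A *ᵥ (δ • e j)) - (A *ᵥ x + -(A *ᵥ (δ • e j))) := by
      rw [two_smul]; abel
    rw [this]
    exact norm_sub_le _ _
  rw [norm_smul, Real.norm_eq_abs, abs_of_pos (by norm_num : (0:ℝ) < 2), Matrix.mulVec_smul, norm_smul,
    Real.norm_eq_abs, abs_of_pos hδ] at h3
  have h4 := entry_le A i j
  rw [Matrix.mulVec_smul] at h1 h2
  have h5 : κ * (2 * (δ * |A i j|)) ≤ κ * (2 * (δ * ‖A *ᵥ e j‖)) := by gcongr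
  nlinarith [mul_le_mul_of_nonneg_left h3 hκ.le]

theorem conePD : S_conePD := by
  intro D C ell κ hdet hC hconv hcone hκ hell hne hinv hfin Q hQ hQC
  have hc := Pool.Agent.Helper33.K3.coord
  obtain ⟨-, -, -, -, hm, h1, -, -, -, -⟩ := hc
  rcases Q.eq_empty_or_nonempty with hQe | hQne
  · subst hQe
    convert Set.finite_empty (α := Aff3)
    ext γ
    simp
  obtain ⟨δ, hδ, hδQ⟩ := hQ.exists_cthickening_subset_open isOpen_interior hQC
  have hball : ∀ x ∈ Q, ∀ y, ‖y‖ ≤ δ → x + y ∈ C := by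
    intro x hx y hy
    apply interior_subset
    apply hδQ
    apply Metric.mem_cthickening_of_dist_le (x + y) x δ Q hx
    rw [dist_eq_norm]
    simpa using hy
  obtain ⟨M, hM⟩ : ∃ M, ∀ x ∈ Q, ell ⬝ᵥ x ≤ M := by
    obtain ⟨M, hM⟩ := (hQ.image (f := fun x => ell ⬝ᵥ x) (by fun_prop)).bddAbove
    exact ⟨M, fun x hx => hM ⟨x, hx, rfl⟩⟩
  have hQell : ∀ x ∈ Q, 0 ≤ ell ⬝ᵥ x := fun x hx =>
    le_trans (by positivity) (hell x (interior_subset (hQC hx)))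
  have hM0 : 0 ≤ M := by
    obtain ⟨x, hx⟩ := hQne
    exact (hQell x hx).trans (hM x hx)
  set N : ℝ := M / (κ * δ) with hN
  have hκδ : 0 < κ * δ := by positivity
  have hN0 : 0 ≤ N := by positivity
  have hbd : ∀ (A : M3) (x : E) (s : ℝ), (∀ x ∈ C, A *ᵥ x ∈ C) → x ∈ Q → ell ⬝ᵥ (A *ᵥ x) ≤ s * M →
      ∀ i j, |A i j| ≤ s * N := by
    intro A x s hA hx hs i j
    have := cone_bound C ell κ δ hκ hδ hell A hA x (hball x hx) i j
    rw [hN, mul_div_assoc', le_div_iff₀ hκδ]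
    linarith
  refine (hfin (max N (6 * N ^ 4))).subset ?_
  rintro γ ⟨hγ, x, hx, t, ht, hy⟩
  refine ⟨hγ, ?_⟩
  have hγi : γ⁻¹ ∈ D.Γ := D.Γ.inv_mem hγ
  have hinvm : mat γ⁻¹ *ᵥ (t • (mat γ *ᵥ x)) = t • x := by
    rw [Matrix.mulVec_smul, Matrix.mulVec_mulVec, ← hm, inv_mul_cancel, h1, Matrix.one_mulVec]
  have hB : ∀ i j, |mat γ⁻¹ i j| ≤ t * N := by
    apply hbd _ _ t (hinv _ hγi) hy
    rw [hinvm, dotProduct_smul, smul_eq_mul]
    gcongr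
    exact hM x hx
  have hA : ∀ i j, |mat γ i j| ≤ t⁻¹ * N := by
    apply hbd _ _ t⁻¹ (hinv _ hγ) hx
    have := hM _ hy
    rw [dotProduct_smul, smul_eq_mul] at this
    rw [inv_mul_eq_div, le_div_iff₀ ht]
    linarith
  have hd := det_le _ _ hB
  rw [hdet _ hγi] at hd
  intro i j
  have hij : |lin γ i j| ≤ t⁻¹ * N := hA i j
  refine hij.trans ?_
  rcases le_or_gt 1 t with h | h
  · refine le_max_of_le_left ?_
    have : t⁻¹ ≤ 1 := inv_le_one_of_one_le₀ h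
    nlinarith
  · refine le_max_of_le_right ?_
    have h3 : 1 ≤ 6 * N ^ 3 * t := by
      have : t ^ 3 ≤ t := by nlinarith [mul_pos ht ht]
      calc (1 : ℝ) ≤ 6 * (t * N) ^ 3 := hd
        _ = 6 * N ^ 3 * t ^ 3 := by ring
        _ ≤ 6 * N ^ 3 * t := by gcongr
    rw [inv_mul_eq_div, div_le_iff₀ ht]
    nlinarith

end Pool.Agent.Helper23.K3
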