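import Pool.Agent.Helper77.K3.DefsII
import Pool.Agent.Helper33.K3.coord

/-!
# Triangular affine maps: group structure and normal form
-/

set_option autoImplicit false

open Set Filter Topology

namespace Pool.Agent.Helper23.K3

open Pool.Agent.Helper77.K3 Pool.Agent.Helper33.K3

lemma lin_one (i j : Fin 3) : lin 1 i j = if i = j then 1 else 0 := by
  have : lin 1 i j = mat 1 i j := rfl
  rw [this, mat_one, Matrix.one_apply]

lemma tr_one (i : Fin 3) : tr 1 i = 0 := rfl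

lemma tri_mul {γ δ : Aff3} (hγ : IsTri γ) (hδ : IsTri δ) :
    IsTri (γ * δ) ∧ ∀ i, lin (γ * δ) i i = lin γ i i * lin δ i i := by
  obtain ⟨a1, a2, a3, a4, a5, a6, a7⟩ := hγ
  obtain ⟨b1, b2, b3, b4, b5, b6, b7⟩ := hδ
  have hd : ∀ i, lin (γ * δ) i i = lin γ i i * lin δ i i := by
    intro i
    fin_cases i
    · show lin (γ * δ) 0 0 = lin γ 0 0 * lin δ 0 0
      rw [lin_mul, b1, b2]; ring
    · show lin (γ * δ) 1 1 = lin γ 1 1 * lin δ 1 1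
      rw [lin_mul, a1, b3]; ring
    · show lin (γ * δ) 2 2 = lin γ 2 2 * lin δ 2 2
      rw [lin_mul, a2, a3]; ring
  refine ⟨⟨?_, ?_, ?_, ?_, ?_, ?_, ?_⟩, hd⟩
  · rw [lin_mul, a1, b1, b2]; ring
  · rw [lin_mul, a2, a3, b2]; ring
  · rw [lin_mul, a2, a3, b3]; ring
  · rw [hd]; positivity
  · rw [hd]; positivity
  · rw [hd]; positivity
  · rw [hd, hd, hd]
    calc lin γ 0 0 * lin δ 0 0 * (lin γ 1 1 * lin δ 1 1) * (lin γ 2 2 * lin δ 2 2) =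
        (lin γ 0 0 * lin γ 1 1 * lin γ 2 2) * (lin δ 0 0 * lin δ 1 1 * lin δ 2 2) := by ring
      _ = 1 := by rw [a7, b7]; ring

lemma tri_inv {γ : Aff3} (hγ : IsTri γ) :
    IsTri γ⁻¹ ∧ ∀ i, lin γ⁻¹ i i = (lin γ i i)⁻¹ := by
  obtain ⟨a1, a2, a3, a4, a5, a6, a7⟩ := hγ
  have h : ∀ i j, lin γ⁻¹ i 0 * lin γ 0 j + lin γ⁻¹ i 1 * lin γ 1 j + lin γ⁻¹ i 2 * lin γ 2 j =
      if i = j then 1 else 0 := by
    intro i j
    rw [← lin_mul, inv_mul_cancel, lin_one]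
  have h10 := h 1 0
  have h20 := h 2 0
  have h21 := h 2 1
  have h00 := h 0 0
  have h11 := h 1 1
  have h22 := h 2 2
  simp only [Fin.reduceEq, if_false, if_true, a1, a2, a3, mul_zero, add_zero] at h10 h20 h21 h00 h11 h22
  have c1 : lin γ⁻¹ 1 0 = 0 := by
    rcases mul_eq_zero.1 h10 with h | h
    · exact h
    · exact absurd h a4.ne'
  have c2 : lin γ⁻¹ 2 0 = 0 := by
    rcases mul_eq_zero.1 h20 with h | h
    · exact h
    · exact absurd h a4.ne'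
  rw [c2, zero_mul, zero_add] at h21
  have c3 : lin γ⁻¹ 2 1 = 0 := by
    rcases mul_eq_zero.1 h21 with h | h
    · exact h
    · exact absurd h a5.ne'
  rw [c1, zero_mul, zero_add] at h11
  rw [c2, c3, zero_mul, zero_mul, zero_add, zero_add] at h22
  have d0 : lin γ⁻¹ 0 0 = (lin γ 0 0)⁻¹ := eq_inv_of_mul_eq_one_left h00
  have d1 : lin γ⁻¹ 1 1 = (lin γ 1 1)⁻¹ := eq_inv_of_mul_eq_one_left h11
  have d2 : lin γ⁻¹ 2 2 = (lin γ 2 2)⁻¹ := eq_inv_of_mul_eq_one_left h22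
  refine ⟨⟨c1, c2, c3, ?_, ?_, ?_, ?_⟩, ?_⟩
  · rw [d0]; positivity
  · rw [d1]; positivity
  · rw [d2]; positivity
  · rw [d0, d1, d2, ← mul_inv, ← mul_inv, a7, inv_one]
  · intro i
    fin_cases i
    · exact d0
    · exact d1
    · exact d2

/-- Conjugation by a triangular map preserves triangularity and the diagonal. -/
lemma tri_conj {φ γ : Aff3} (hφ : IsTri φ) (hγ : IsTri γ) :
    IsTri (φ * γ * φ⁻¹) ∧ ∀ i, lin (φ * γ * φ⁻¹) i i = lin γ i i := by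
  have h1 := tri_mul hφ hγ
  have h2 := tri_inv hφ
  have h3 := tri_mul h1.1 h2.1
  refine ⟨h3.1, fun i => ?_⟩
  rw [h3.2, h1.2, h2.2]
  have : lin φ i i ≠ 0 := by
    fin_cases i
    · exact hφ.2.2.2.1.ne'
    · exact hφ.2.2.2.2.1.ne'
    · exact hφ.2.2.2.2.2.1.ne'
  field_simp

/-- The commutator of two triangular maps is unipotent. -/
lemma tri_comm {γ δ : Aff3} (hγ : IsTri γ) (hδ : IsTri δ) :
    IsTri (γ * δ * γ⁻¹ * δ⁻¹) ∧ ∀ i, lin (γ * δ * γ⁻¹ * δ⁻¹) i i = 1 := by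
  have h1 := tri_conj hγ hδ
  have h2 := tri_inv hδ
  have h3 := tri_mul h1.1 h2.1
  refine ⟨h3.1, fun i => ?_⟩
  rw [h3.2, h1.2, h2.2]
  have : lin δ i i ≠ 0 := by
    fin_cases i
    · exact hδ.2.2.2.1.ne'
    · exact hδ.2.2.2.2.1.ne'
    · exact hδ.2.2.2.2.2.1.ne'
  field_simp

lemma solve (s d d' : ℝ) : ∃ x w : ℝ, s + x * d' = d * x + w ∧ (d ≠ d' → w = 0) := by
  by_cases h : d = d'
  · exact ⟨0, s, by ring, fun h' => absurd h h'⟩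
  · refine ⟨s / (d - d'), 0, ?_, fun _ => rfl⟩
    have : d - d' ≠ 0 := sub_ne_zero.2 h
    field_simp
    ring

lemma exists_tri (a b c p q r t₀ t₁ t₂ : ℝ) (h : a * b * c ≠ 0) : ∃ φ : Aff3,
    lin φ 0 0 = a ∧ lin φ 0 1 = p ∧ lin φ 0 2 = q ∧ lin φ 1 0 = 0 ∧ lin φ 1 1 = b ∧ lin φ 1 2 = r ∧
    lin φ 2 0 = 0 ∧ lin φ 2 1 = 0 ∧ lin φ 2 2 = c ∧ tr φ 0 = t₀ ∧ tr φ 1 = t₁ ∧ tr φ 2 = t₂ := by
  obtain ⟨-, -, -, -, -, -, -, -, -, hex⟩ := coord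
  obtain ⟨φ, h1, h2, -⟩ := hex !![a, p, q; 0, b, r; 0, 0, c] ![t₀, t₁, t₂] (by
    rw [Matrix.det_fin_three]
    simpa using h)
  have h3 : ∀ i j, lin φ i j = (!![a, p, q; 0, b, r; 0, 0, c] : M3) i j := by
    intro i j
    rw [← h1]
    rfl
  refine ⟨φ, ?_, ?_, ?_, ?_, ?_, ?_, ?_, ?_, ?_, ?_, ?_, ?_⟩
  · rw [h3]; rfl
  · rw [h3]; rfl
  · rw [h3]; rfl
  · rw [h3]; rfl
  · rw [h3]; rfl
  · rw [h3]; rfl
  · rw [h3]; rfl
  · rw [h3]; rfl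
  · rw [h3]; rfl
  · rw [h2]; rfl
  · rw [h2]; rfl
  · rw [h2]; rfl

/-- Normal form of a triangular affine map. -/
lemma norm_elt (g : Aff3) (hg : IsTri g) : ∃ φ : Aff3, IsTri φ ∧ (∀ i, lin φ i i = 1) ∧
    (lin g 0 0 ≠ lin g 1 1 → lin (φ * g * φ⁻¹) 0 1 = 0) ∧
    (lin g 1 1 ≠ lin g 2 2 → lin (φ * g * φ⁻¹) 1 2 = 0) ∧
    (lin g 0 0 ≠ lin g 2 2 → lin (φ * g * φ⁻¹) 0 2 = 0) ∧
    (∀ i, lin g i i ≠ 1 → tr (φ * g * φ⁻¹) i = 0) := by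
  obtain ⟨a1, a2, a3, a4, a5, a6, a7⟩ := hg
  obtain ⟨x01, w01, e01, z01⟩ := solve (lin g 0 1) (lin g 0 0) (lin g 1 1)
  obtain ⟨x12, w12, e12, z12⟩ := solve (lin g 1 2) (lin g 1 1) (lin g 2 2)
  obtain ⟨y2, w23, e23, z23⟩ := solve (tr g 2) (lin g 2 2) 1
  obtain ⟨x02, w02, e02, z02⟩ := solve (lin g 0 2 + x01 * lin g 1 2 - w01 * x12) (lin g 0 0) (lin g 2 2)
  obtain ⟨y1, w13, e13, z13⟩ := solve (tr g 1 + x12 * tr g 2 - w12 * y2) (lin g 1 1) 1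
  obtain ⟨y0, w03, e03, z03⟩ := solve (tr g 0 + x01 * tr g 1 + x02 * tr g 2 - w01 * y1 - w02 * y2)
    (lin g 0 0) 1
  obtain ⟨φ, p1, p2, p3, p4, p5, p6, p7, p8, p9, p10, p11, p12⟩ :=
    exists_tri 1 1 1 x01 x02 x12 y0 y1 y2 (by norm_num)
  obtain ⟨g', q1, q2, q3, q4, q5, q6, q7, q8, q9, q10, q11, q12⟩ :=
    exists_tri (lin g 0 0) (lin g 1 1) (lin g 2 2) w01 w02 w12 w03 w13 w23 (by rw [a7]; norm_num)
  have heq : φ * g = g' * φ := by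
    apply aff_ext
    · intro i j
      rw [lin_mul, lin_mul]
      fin_cases i <;> fin_cases j <;> simp only [Fin.zero_eta, Fin.mk_one, Fin.reduceFinMk, p1, p2, p3, p4, p5, p6, p7, p8, p9, q1, q2,
        q3, q4, q5, q6, q7, q8, q9, a1, a2, a3] <;> linarith
    · intro i
      rw [tr_mul, tr_mul]
      fin_cases i <;> simp only [Fin.zero_eta, Fin.mk_one, Fin.reduceFinMk, p1, p2, p3, p4, p5, p6, p7, p8, p9, p10, p11, p12, q1, q2,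
        q3, q4, q5, q6, q7, q8, q9, q10, q11, q12] <;> linarith
  have hconj : φ * g * φ⁻¹ = g' := by
    rw [heq, mul_assoc, mul_inv_cancel, mul_one]
  refine ⟨φ, ⟨p4, p7, p8, by rw [p1]; norm_num, by rw [p5]; norm_num, by rw [p9]; norm_num,
    by rw [p1, p5, p9]; norm_num⟩, ?_, ?_, ?_, ?_, ?_⟩
  · intro i
    fin_cases i
    · exact p1
    · exact p5
    · exact p9
  · intro h
    rw [hconj, q2, z01 h]
  · intro h
    rw [hconj, q6, z12 h]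
  · intro h
    rw [hconj, q3, z02 h]
  · intro i h
    rw [hconj]
    fin_cases i
    · exact q10.trans (z03 h)
    · exact q11.trans (z13 h)
    · exact q12.trans (z23 h)

theorem norm (hconj : S_conj) : S_norm := by
  intro D g hT hg
  obtain ⟨φ, hφ, hφ1, h1, h2, h3, h4⟩ := norm_elt g (hT g hg)
  obtain ⟨D', hΩ, hΓ⟩ := hconj D φ
  have hback : ∀ γ : Aff3, φ⁻¹ * (φ * γ * φ⁻¹) * φ = γ := by
    intro γ
    group
  have hback2 : ∀ γ : Aff3, φ * (φ⁻¹ * γ * φ) * φ⁻¹ = γ := by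
    intro γ
    group
  refine ⟨φ, D', ?_, hφ, hφ1, hΓ, hΩ, ?_, h1, h2, h3, h4⟩
  · intro γ hγ
    have h5 := tri_conj hφ (hT _ ((hΓ γ).1 hγ))
    rw [hback2] at h5
    exact h5.1
  · intro γ hγ
    refine ⟨?_, (tri_conj hφ (hT γ hγ)).2⟩
    rw [hΓ, hback]
    exact hγ

end Pool.Agent.Helper23.K3
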